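import Pool.Agent.L0h29.AL.Defs

set_option autoImplicit false

/-!
# Project AL, DIH: nontrivial relations of the dihedral Artin group

The dihedral Artin group maps onto the free product of `Z/2 = ⟨ν⟩` and `Z/m = ⟨ρ⟩`
(`s ↦ ρ ν`, `t ↦ ν ρ`).  A word is cut into maximal alternating runs of letters with the same sign;
its image is `ν^? ρ^(± p₁) ν ρ^(± p₂) ν ⋯`.
-/

namespace Pool.Agent.L0h72.AL

open Pool.Agent.L0h29.AL Pool.Agent.K7.H20.AW Monoid

namespace Dih

variable (N : Bool → ℕ)

/-- the free product -/
abbrev FP : Type := CoprodI fun b : Bool => Multiplicative (ZMod (N b))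

/-- the powers of the generators -/
def el (i : Bool) (k : ℤ) : FP N :=
  CoprodI.of (i := i) (Multiplicative.ofAdd (k : ZMod (N i)))

lemma el_add (i : Bool) (k l : ℤ) : el N i (k + l) = el N i k * el N i l := by
  unfold el
  rw [← map_mul, ← ofAdd_add]
  push_cast
  rfl

lemma el_zero (i : Bool) : el N i 0 = 1 := by
  unfold el
  simp

lemma el_dvd (i : Bool) (k : ℤ) (h : (N i : ℤ) ∣ k) : el N i k = 1 := by
  unfold el
  rw [(ZMod.intCast_zmod_eq_zero_iff_dvd k (N i)).2 h]
  simp

lemma el_neg (i : Bool) (k : ℤ) : (el N i k)⁻¹ = el N i (-k) := by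
  rw [inv_eq_iff_mul_eq_one, ← el_add, add_neg_cancel, el_zero]

lemma ne_one (i : Bool) (k : ℤ) (h : ¬ (N i : ℤ) ∣ k) :
    Multiplicative.ofAdd (k : ZMod (N i)) ≠ 1 := by
  intro h1
  apply h
  rw [← ZMod.intCast_zmod_eq_zero_iff_dvd]
  exact h1

/-- the state: `g` is a normal form which begins with the run of length `p`, sign `e` and type `c` -/
def St (c : Bool) (e : ℤ) (p : ℤ) (g : FP N) : Prop :=
  ∃ T : CoprodI.Word (fun b : Bool => Multiplicative (ZMod (N b))), T.fstIdx ≠ some true ∧
    g = (if c then 1 else el N false 1) * el N true (e * p) * T.prod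

/-- the image of a letter -/
def lam (c : Bool) (e : ℤ) : FP N :=
  if c then el N true e * el N false 1 else el N false 1 * el N true e

variable {N}

lemma nn (h2 : N false = 2) : el N false 1 * el N false 1 = 1 := by
  rw [← el_add]
  exact el_dvd N false _ (by rw [h2]; norm_num)

lemma not1 (h2 : N false = 2) : ¬ (N false : ℤ) ∣ 1 := by
  rw [h2]
  norm_num

lemma cons_nu (h2 : N false = 2)
    (T : CoprodI.Word (fun b : Bool => Multiplicative (ZMod (N b)))) (hT : T.fstIdx ≠ some false) :
    ∃ T' : CoprodI.Word (fun b : Bool => Multiplicative (ZMod (N b))),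
      T'.fstIdx = some false ∧ T'.prod = el N false 1 * T.prod := by
  refine ⟨CoprodI.Word.cons (Multiplicative.ofAdd ((1 : ℤ) : ZMod (N false))) T hT
    (ne_one N false 1 (not1 h2)), CoprodI.Word.fstIdx_cons _ _ _ _, ?_⟩
  rw [CoprodI.Word.prod_cons]
  rfl

lemma cons_rho (k : ℤ) (hk : ¬ (N true : ℤ) ∣ k)
    (T : CoprodI.Word (fun b : Bool => Multiplicative (ZMod (N b)))) (hT : T.fstIdx ≠ some true) :
    ∃ T' : CoprodI.Word (fun b : Bool => Multiplicative (ZMod (N b))),
      T'.fstIdx = some true ∧ T'.prod = el N true k * T.prod := by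
  refine ⟨CoprodI.Word.cons (Multiplicative.ofAdd ((k : ℤ) : ZMod (N true))) T hT
    (ne_one N true k hk), CoprodI.Word.fstIdx_cons _ _ _ _, ?_⟩
  rw [CoprodI.Word.prod_cons]
  rfl

lemma st_start (h2 : N false = 2) (c : Bool) (e : ℤ) : St N c e 1 (lam N c e) := by
  cases c with
  | true =>
    obtain ⟨T, hT, hp⟩ := cons_nu h2 CoprodI.Word.empty (by simp [CoprodI.Word.fstIdx,
      CoprodI.Word.empty])
    refine ⟨T, by rw [hT]; simp, ?_⟩
    rw [hp, CoprodI.Word.prod_empty]
    simp [lam]
  | false =>
    refine ⟨CoprodI.Word.empty, by simp [CoprodI.Word.fstIdx, CoprodI.Word.empty], ?_⟩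
    rw [CoprodI.Word.prod_empty]
    simp [lam]

lemma st_extend (h2 : N false = 2) {c : Bool} {e p : ℤ} {g : FP N} (h : St N (!c) e p g) :
    St N c e (p + 1) (lam N c e * g) := by
  obtain ⟨T, hT, rfl⟩ := h
  refine ⟨T, hT, ?_⟩
  have e1 : e * (p + 1) = e + e * p := by ring
  rw [e1, el_add]
  cases c with
  | true =>
    simp only [lam, if_true, Bool.not_true, Bool.false_eq_true, if_false, one_mul]
    calc el N true e * el N false 1 * (el N false 1 * el N true (e * p) * T.prod) =
        el N true e * (el N false 1 * el N false 1) * el N true (e * p) * T.prod := by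
          simp only [mul_assoc]
      _ = _ := by rw [nn h2, mul_one]
  | false =>
    simp only [lam, if_true, Bool.not_false, Bool.false_eq_true, if_false, one_mul]
    simp only [mul_assoc]

lemma st_break (h2 : N false = 2) {c : Bool} (e : ℤ) {d p : ℤ} {g : FP N}
    (hp : ¬ (N true : ℤ) ∣ d * p) (h : St N c d p g) : St N c e 1 (lam N c e * g) := by
  obtain ⟨T, hT, rfl⟩ := h
  obtain ⟨T1, hT1, hp1⟩ := cons_rho (d * p) hp T hT
  obtain ⟨T2, hT2, hp2⟩ := cons_nu h2 T1 (by rw [hT1]; simp)
  refine ⟨T2, by rw [hT2]; simp, ?_⟩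
  rw [hp2, hp1, mul_one]
  cases c with
  | true => simp [lam, mul_assoc]
  | false => simp [lam, mul_assoc]

lemma st_ne (h2 : N false = 2) {c : Bool} {e p : ℤ} {g : FP N}
    (hp : ¬ (N true : ℤ) ∣ e * p) (h : St N c e p g) : g ≠ 1 := by
  obtain ⟨T, hT, rfl⟩ := h
  obtain ⟨T1, hT1, hp1⟩ := cons_rho (e * p) hp T hT
  have key : ∀ T' : CoprodI.Word (fun b : Bool => Multiplicative (ZMod (N b))),
      T'.fstIdx ≠ none → T'.prod ≠ 1 := by
    intro T' h1 h3
    rw [← CoprodI.Word.prod_empty] at h3
    have h4 : T' = CoprodI.Word.empty := by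
      classical
      exact CoprodI.Word.equiv.symm.injective h3
    apply h1
    rw [h4]
    simp [CoprodI.Word.fstIdx, CoprodI.Word.empty]
  cases c with
  | true =>
    have h3 := key T1 (by rw [hT1]; simp)
    rw [hp1] at h3
    simpa using h3
  | false =>
    obtain ⟨T2, hT2, hp2⟩ := cons_nu h2 T1 (by rw [hT1]; simp)
    have h3 := key T2 (by rw [hT2]; simp)
    rw [hp2, hp1, ← mul_assoc] at h3
    simpa using h3

lemma st_pow (h2 : N false = 2) {c : Bool} {e q : ℤ} {g : FP N} (he : ¬ (N true : ℤ) ∣ e * 1)
    (hq : ¬ (N true : ℤ) ∣ e * q) (h : St N c e q g) (n : ℕ) :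
    St N c e (if n = 0 then q else 1) (lam N c e ^ n * g) := by
  induction n with
  | zero => simpa using h
  | succ n ih =>
    rw [pow_succ', mul_assoc, if_neg (Nat.succ_ne_zero n)]
    refine st_break h2 e ?_ ih
    by_cases hn : n = 0
    · rw [if_pos hn]; exact hq
    · rw [if_neg hn]; exact he

variable (N)

/-- the homomorphism -/
def phi : FreeGroup Bool →* FP N :=
  FreeGroup.lift fun x => lam N x 1

variable {N}

lemma phi_of (x : Bool) : phi N (FreeGroup.of x) = lam N x 1 := by
  unfold phi
  rw [FreeGroup.lift_apply_of]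

lemma lam_inv (h2 : N false = 2) (c : Bool) : (lam N c 1)⁻¹ = lam N (!c) (-1) := by
  have h3 : (el N false 1)⁻¹ = el N false 1 := by
    rw [inv_eq_iff_mul_eq_one]
    exact nn h2
  cases c with
  | true => simp [lam, el_neg, h3]
  | false => simp [lam, el_neg, h3]

lemma alt_img (h2 : N false = 2) (p : ℕ) :
    phi N (altProd p (FreeGroup.of true) (FreeGroup.of false)) = el N true p * el N false p ∧
    phi N (altProd p (FreeGroup.of false) (FreeGroup.of true)) =
      el N false 1 * el N true p * el N false (p + 1) := by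
  induction p with
  | zero =>
    constructor
    · simp [altProd, el_zero]
    · simp only [altProd, map_one, Nat.cast_zero, el_zero, zero_add, mul_one]
      exact (nn h2).symm
  | succ p ih =>
    constructor
    · have h3 : altProd (p + 1) (FreeGroup.of true) (FreeGroup.of false) =
        FreeGroup.of true * altProd p (FreeGroup.of false) (FreeGroup.of true) := rfl
      rw [h3, map_mul, phi_of, ih.2]
      simp only [lam, if_true]
      calc el N true 1 * el N false 1 * (el N false 1 * el N true p * el N false (p + 1)) =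
          el N true 1 * (el N false 1 * el N false 1) * el N true p * el N false (p + 1) := by
            simp only [mul_assoc]
        _ = el N true 1 * el N true p * el N false (p + 1) := by rw [nn h2, mul_one]
        _ = _ := by
          rw [← el_add]
          push_cast
          rw [add_comm (1 : ℤ)]
    · have h3 : altProd (p + 1) (FreeGroup.of false) (FreeGroup.of true) =
        FreeGroup.of false * altProd p (FreeGroup.of true) (FreeGroup.of false) := rfl
      rw [h3, map_mul, phi_of, ih.1]
      simp only [lam, Bool.false_eq_true, if_false]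
      have h4 : el N false (((p + 1 : ℕ) : ℤ) + 1) = el N false p := by
        have h5 : (((p + 1 : ℕ) : ℤ) + 1) = p + 2 := by push_cast; ring
        rw [h5, el_add, el_dvd N false 2 (by rw [h2]; norm_num), mul_one]
      rw [h4]
      have h5 : el N true ((p + 1 : ℕ) : ℤ) = el N true 1 * el N true p := by
        rw [← el_add]
        push_cast
        rw [add_comm]
      rw [h5]
      simp only [mul_assoc]

lemma phi_rm (h2 : N false = 2) : phi N (rm (N true)) = 1 := by
  unfold rm
  rw [map_mul, map_inv, (alt_img h2 (N true)).1, (alt_img h2 (N true)).2,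
    el_dvd N true (N true) (dvd_refl _), one_mul, mul_one, mul_inv_eq_one, ← el_add]
  have h5 : (1 : ℤ) + ((N true : ℤ) + 1) = N true + 2 := by ring
  rw [h5, el_add, el_dvd N false 2 (by rw [h2]; norm_num), mul_one]

lemma phi_ker (h2 : N false = 2) (g : FreeGroup Bool)
    (hg : g ∈ Subgroup.normalClosure {rm (N true)}) : phi N g = 1 := by
  have h3 : Subgroup.normalClosure {rm (N true)} ≤ (phi N).ker := by
    refine Subgroup.normalClosure_le_normal ?_
    intro x hx
    rw [Set.mem_singleton_iff] at hx
    subst hx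
    exact phi_rm h2
  exact h3 hg

/-- the type of the syllable -/
def cc (x : Bool) (k : ℤ) : Bool := x == decide (0 < k)

lemma phi_syl (h2 : N false = 2) (x : Bool) (k : ℤ) (hk : k ≠ 0) :
    phi N (FreeGroup.of x ^ k) = lam N (cc x k) k.sign ^ k.natAbs := by
  rw [map_zpow, phi_of]
  rcases lt_or_gt_of_ne hk with h | h
  · have e1 : cc x k = !x := by
      unfold cc
      rw [decide_eq_false (by omega)]
      cases x <;> rfl
    rw [e1, Int.sign_eq_neg_one_of_neg h, ← lam_inv h2]
    have e2 : k = -(k.natAbs : ℤ) := by omega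
    conv_lhs => rw [e2]
    rw [zpow_neg, zpow_natCast, inv_pow]
  · have e1 : cc x k = x := by
      unfold cc
      rw [decide_eq_true (by omega)]
      cases x <;> rfl
    rw [e1, Int.sign_eq_one_of_pos h]
    have e2 : k = (k.natAbs : ℤ) := by omega
    conv_lhs => rw [e2]
    rw [zpow_natCast]

lemma not_dvd {p : ℕ} {e : ℤ} (he : e = 1 ∨ e = -1) (h1 : 1 ≤ p) (h3 : p < N true) :
    ¬ (N true : ℤ) ∣ e * p := by
  intro h
  have h4 : (N true : ℤ) ∣ p := by
    rcases he with rfl | rfl
    · simpa using h
    · simpa using h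
  have h5 : N true ∣ p := by exact_mod_cast h4
  have := Nat.le_of_dvd (by omega) h5
  omega

lemma sign_cases {k : ℤ} (hk : k ≠ 0) : k.sign = 1 ∨ k.sign = -1 := by
  rcases lt_or_gt_of_ne hk with h | h
  · exact Or.inr (Int.sign_eq_neg_one_of_neg h)
  · exact Or.inl (Int.sign_eq_one_of_pos h)

lemma run (h2 : N false = 2) : ∀ (l : List (Bool × ℤ)) (x : Bool) (k : ℤ), Syl ((x, k) :: l) →
    up ((x, k) :: l) + 3 < N true → ∃ p : ℕ, 1 ≤ p ∧ p ≤ up ((x, k) :: l) + 2 ∧
      (|k| ≠ 1 → p = 1) ∧ St N (cc x k) k.sign p (phi N (ev FreeGroup.of ((x, k) :: l))) := by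
  intro l
  induction l with
  | nil =>
    intro x k hs hu
    have hk : k ≠ 0 := hs.2 (x, k) (by simp)
    refine ⟨1, le_refl _, by omega, fun _ => rfl, ?_⟩
    have h3 : ev FreeGroup.of [(x, k)] = FreeGroup.of x ^ k := by simp [ev]
    rw [h3, phi_syl h2 x k hk]
    have h4 : k.natAbs = (k.natAbs - 1) + 1 := by omega
    rw [h4, pow_succ]
    have h5 : ¬ (N true : ℤ) ∣ k.sign * ((1 : ℕ) : ℤ) :=
      not_dvd (sign_cases hk) (le_refl _) (by omega)
    have h6 := st_pow h2 (by simpa using h5) (by simpa using h5)
      (st_start (N := N) h2 (cc x k) k.sign) (k.natAbs - 1)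
    simpa using h6
  | cons a l ih =>
    obtain ⟨y, k2⟩ := a
    intro x k hs hu
    have hk : k ≠ 0 := hs.2 (x, k) (by simp)
    have hk2 : k2 ≠ 0 := hs.2 (y, k2) (by simp)
    have hxy : x ≠ y := by
      have := hs.1
      rw [List.isChain_cons_cons] at this
      exact this.1
    have hy : y = !x := by
      revert hxy
      cases x <;> cases y <;> simp
    have hs' : Syl ((y, k2) :: l) := by
      refine ⟨?_, fun a ha => hs.2 a (List.mem_cons_of_mem _ ha)⟩
      have := hs.1
      rw [List.isChain_cons_cons] at this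
      exact this.2
    have hup : up ((x, k) :: (y, k2) :: l) =
        (if |k| = 1 ∧ |k2| = 1 then 1 else 0) + up ((y, k2) :: l) := rfl
    have hup1 : up ((y, k2) :: l) ≤ up ((x, k) :: (y, k2) :: l) := by
      rw [hup]
      omega
    obtain ⟨p, hp1, hp2, hp3, hst⟩ := ih y k2 hs' (by omega)
    have hev : ev FreeGroup.of ((x, k) :: (y, k2) :: l) =
        FreeGroup.of x ^ k * ev FreeGroup.of ((y, k2) :: l) := by
      simp [ev]
    set g := phi N (ev FreeGroup.of ((y, k2) :: l)) with hg
    have h4 : k.natAbs = (k.natAbs - 1) + 1 := by omega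
    have himg : phi N (ev FreeGroup.of ((x, k) :: (y, k2) :: l)) =
        lam N (cc x k) k.sign ^ (k.natAbs - 1) * (lam N (cc x k) k.sign * g) := by
      rw [hev, map_mul, phi_syl h2 x k hk, ← hg]
      conv_lhs => rw [h4, pow_succ]
      rw [mul_assoc]
    have habs : |k| = 1 ↔ k.natAbs - 1 = 0 := by
      rw [Int.abs_eq_natAbs]
      omega
    have hd1 : ¬ (N true : ℤ) ∣ k.sign * 1 := by
      have := not_dvd (N := N) (p := 1) (sign_cases hk) (le_refl _) (by omega)
      simpa using this
    -- the last letter of the syllable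
    obtain ⟨q, hq1, hq2, hq3⟩ : ∃ q : ℕ, 1 ≤ q ∧ (q ≤ p + 1) ∧
        St N (cc x k) k.sign q (lam N (cc x k) k.sign * g) := by
      by_cases hsg : k.sign = k2.sign
      · refine ⟨p + 1, by omega, le_refl _, ?_⟩
        have e1 : cc y k2 = !(cc x k) := by
          have h5 : decide (0 < k) = decide (0 < k2) := by
            rcases lt_or_gt_of_ne hk with h | h
            · rw [Int.sign_eq_neg_one_of_neg h] at hsg
              have := Int.neg_of_sign_eq_neg_one hsg.symm
              rw [decide_eq_false (by omega), decide_eq_false (by omega)]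
            · rw [Int.sign_eq_one_of_pos h] at hsg
              have := Int.pos_of_sign_eq_one hsg.symm
              rw [decide_eq_true (by omega), decide_eq_true (by omega)]
          unfold cc
          rw [hy, h5]
          cases x <;> cases decide (0 < k2) <;> rfl
        rw [e1, ← hsg] at hst
        have := st_extend h2 hst
        push_cast
        exact this
      · refine ⟨1, le_refl _, by omega, ?_⟩
        have e1 : cc y k2 = cc x k := by
          have h5 : decide (0 < k) = !decide (0 < k2) := by
            rcases lt_or_gt_of_ne hk with h | h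
            · rw [Int.sign_eq_neg_one_of_neg h] at hsg
              have : 0 < k2 := by
                rcases lt_or_gt_of_ne hk2 with h' | h'
                · exact absurd (Int.sign_eq_neg_one_of_neg h').symm hsg
                · exact h'
              rw [decide_eq_false (by omega), decide_eq_true (by omega)]
              rfl
            · rw [Int.sign_eq_one_of_pos h] at hsg
              have : k2 < 0 := by
                rcases lt_or_gt_of_ne hk2 with h' | h'
                · exact h'
                · exact absurd (Int.sign_eq_one_of_pos h').symm hsg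
              rw [decide_eq_true (by omega), decide_eq_false (by omega)]
              rfl
          unfold cc
          rw [hy, h5]
          cases x <;> cases decide (0 < k2) <;> rfl
        rw [e1] at hst
        have := st_break h2 k.sign (not_dvd (sign_cases hk2) hp1 (by omega)) hst
        push_cast
        exact this
    have hqd : ¬ (N true : ℤ) ∣ k.sign * q := not_dvd (sign_cases hk) hq1 (by omega)
    have hfin := st_pow h2 hd1 hqd hq3 (k.natAbs - 1)
    rw [← himg] at hfin
    by_cases hk1 : |k| = 1
    · rw [if_pos (habs.1 hk1)] at hfin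
      refine ⟨q, hq1, ?_, fun h => absurd hk1 h, hfin⟩
      by_cases hk21 : |k2| = 1
      · rw [hup, if_pos ⟨hk1, hk21⟩]
        omega
      · have := hp3 hk21
        omega
    · rw [if_neg (fun h => hk1 (habs.2 h))] at hfin
      refine ⟨1, le_refl _, by omega, fun _ => rfl, ?_⟩
      push_cast
      exact hfin

end Dih

/-- **DIH** -/
theorem DIH : S_DIH := by
  intro m hm l hl hl0 hev
  by_contra hcon
  set N : Bool → ℕ := fun b => cond b m 2 with hN
  have h2 : N false = 2 := rfl
  have h3 : N true = m := rfl
  rw [← h3] at hev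
  have h4 := Dih.phi_ker h2 _ hev
  match l, hl, hl0, h4, hcon with
  | (x, k) :: l', hl, _, h4, hcon =>
    obtain ⟨p, hp1, hp2, _, hst⟩ := Dih.run h2 l' x k hl (by rw [h3]; omega)
    have hk : k ≠ 0 := hl.2 (x, k) (by simp)
    exact Dih.st_ne h2 (Dih.not_dvd (Dih.sign_cases hk) hp1 (by rw [h3]; omega)) hst h4

end Pool.Agent.L0h72.AL
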