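import Pool.Agent.L0h29.AL.Defs

set_option autoImplicit false

/-!
# Project AL, WIN: the windmill theorem (after `Pool/Agent/H17R2/Windmill.lean`)
-/

namespace Pool.Agent.L0h72.AL

open Pool.Agent.L0h29.AL

namespace FamW

variable {Γ V I : Type*} [Group Γ] [MulAction Γ V] [MulAction Γ I] (S : Fam Γ V I)

lemma D_nonneg (i : I) (p q : V) : 0 ≤ S.D i p q := by
  have h1 := S.D_tri i p q p
  rw [S.D_self, S.D_comm i q p] at h1
  omega

lemma κ_pos : 0 < S.κ := by have := S.hκ; omega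

/-- Two indices describe the same pseudometric. -/
def Same (i j : I) : Prop :=
  S.H i = S.H j ∧ ∀ p q, S.D i p q = S.D j p q

lemma Same.symm {i j : I} (h : Same S i j) : Same S j i :=
  ⟨h.1.symm, fun p q => (h.2 p q).symm⟩

lemma Same.refl (i : I) : Same S i i := ⟨rfl, fun _ _ => rfl⟩

lemma Same.trans {i j k : I} (h : Same S i j) (h' : Same S j k) : Same S i k :=
  ⟨h.1.trans h'.1, fun p q => (h.2 p q).trans (h'.2 p q)⟩

lemma D_smul' (g : Γ) (i : I) (p q : V) : S.D (g • i) p q = S.D i (g⁻¹ • p) (g⁻¹ • q) := by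
  have := S.D_smul g i (g⁻¹ • p) (g⁻¹ • q)
  rwa [smul_inv_smul, smul_inv_smul] at this

lemma mem_H_smul (g : Γ) (i : I) (h : Γ) : h ∈ S.H (g • i) ↔ g⁻¹ * h * g ∈ S.H i := by
  constructor
  · intro hh
    have := S.H_smul g⁻¹ (g • i) h hh
    simpa using this
  · intro hh
    have := S.H_smul g i _ hh
    have e : g * (g⁻¹ * h * g) * g⁻¹ = h := by group
    rwa [e] at this

lemma Same.smul {i j : I} (h : Same S i j) (g : Γ) : Same S (g • i) (g • j) := by
  refine ⟨?_, ?_⟩
  · ext x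
    rw [mem_H_smul, mem_H_smul, h.1]
  · intro p q
    rw [D_smul', D_smul', h.2]

/-- The state of the windmill construction. -/
structure Mill where
  W : Set V
  N : Subgroup Γ
  J : Set I
  w0 : S.v0 ∈ W
  w1 : ∀ n ∈ N, ∀ p ∈ W, n • p ∈ W
  w2 : ∀ i ∈ J, S.H i ≤ N
  w4 : ∀ i, i ∉ J → ∀ p ∈ W, ∀ q ∈ W, S.D i p q ≤ 4 * S.κ
  w5 : ∀ n ∈ N, ∀ i ∈ J, n • i ∈ J
  w6 : ∀ h ∈ N, h ≠ 1 → ∃ i, ∃ k ∈ S.H i, S.L - 5 * S.κ ≤ S.D i S.v0 (h • S.v0) ∧
    S.D i S.v0 (k • h • S.v0) ≤ 5 * S.κ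
  w7 : ∀ i ∈ J, ∀ j, Same S i j → j ∈ J

namespace Mill

variable {S} (M : Mill S)

/-- The indices which are added at the next step. -/
def J1 : Set I := {i | i ∉ M.J ∧ ∃ p ∈ M.W, ∃ q ∈ M.W, S.κ ≤ S.D i p q}

lemma J1_smul (n : Γ) (hn : n ∈ M.N) (i : I) (hi : i ∈ M.J1) : n • i ∈ M.J1 := by
  refine ⟨?_, ?_⟩
  · intro h
    have := M.w5 n⁻¹ (M.N.inv_mem hn) _ h
    rw [inv_smul_smul] at this
    exact hi.1 this
  · obtain ⟨p, hp, q, hq, h⟩ := hi.2
    refine ⟨n • p, M.w1 n hn p hp, n • q, M.w1 n hn q hq, ?_⟩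
    rw [S.D_smul]
    exact h

lemma J1_same {i j : I} (hi : i ∈ M.J1) (h : Same S i j) : j ∈ M.J1 := by
  refine ⟨fun hj => hi.1 (M.w7 j hj i (Same.symm S h)), ?_⟩
  obtain ⟨p, hp, q, hq, h'⟩ := hi.2
  refine ⟨p, hp, q, hq, ?_⟩
  rw [← h.2]
  exact h'

/-- Normal forms of elements of the next group. -/
inductive Rep : Γ → List (I × Γ) → Prop
  | base (n : Γ) (hn : n ∈ M.N) : Rep n []
  | cons (i : I) (h g : Γ) (l : List (I × Γ)) (hi : i ∈ M.J1) (hh : h ∈ S.H i) (h1 : h ≠ 1)
      (hr : Rep g l) (hne : ∀ j k t, l = (j, k) :: t → ¬ Same S i j) : Rep (h * g) ((i, h) :: l)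

lemma rep_mul_N {g : Γ} {l : List (I × Γ)} (h : M.Rep g l) :
    ∀ n ∈ M.N, M.Rep (n * g) (l.map fun x => (n • x.1, n * x.2 * n⁻¹)) := by
  induction h with
  | base m hm => intro n hn; exact Rep.base _ (M.N.mul_mem hn hm)
  | cons i h g l hi hh h1 hr hne ih =>
    intro n hn
    have e : n * (h * g) = (n * h * n⁻¹) * (n * g) := by group
    rw [e, List.map_cons]
    refine Rep.cons _ _ _ _ (M.J1_smul n hn i hi) (S.H_smul n i h hh) ?_ (ih n hn) ?_
    · intro h2
      apply h1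
      have := congrArg (fun z => n⁻¹ * z * n) h2
      simpa [mul_assoc] using this
    · intro j k t hl hs
      cases l with
      | nil => simp at hl
      | cons x t' =>
        obtain ⟨j', k'⟩ := x
        simp only [List.map_cons, List.cons.injEq, Prod.mk.injEq] at hl
        obtain ⟨⟨rfl, _⟩, _⟩ := hl
        refine hne j' k' t' rfl ?_
        have := Same.smul S hs n⁻¹
        rwa [inv_smul_smul, inv_smul_smul] at this

lemma rep_mul_H {g : Γ} {l : List (I × Γ)} (h : M.Rep g l) (i : I) (hi : i ∈ M.J1) (x : Γ)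
    (hx : x ∈ S.H i) : ∃ l', M.Rep (x * g) l' := by
  by_cases hx1 : x = 1
  · subst hx1; exact ⟨l, by simpa using h⟩
  cases h with
  | base n hn =>
    exact ⟨_, Rep.cons i x _ [] hi hx hx1 (Rep.base _ hn) (by simp)⟩
  | cons j k g' t hj hk hk1 hr hne =>
    by_cases hs : Same S i j
    · have hx' : x ∈ S.H j := hs.1 ▸ hx
      by_cases hxk : x * k = 1
      · refine ⟨t, ?_⟩
        rw [← mul_assoc, hxk, one_mul]; exact hr
      · refine ⟨(j, x * k) :: t, ?_⟩
        rw [← mul_assoc]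
        exact Rep.cons j (x * k) g' t hj ((S.H j).mul_mem hx' hk) hxk hr hne
    · refine ⟨(i, x) :: (j, k) :: t, ?_⟩
      refine Rep.cons i x _ _ hi hx hx1 (Rep.cons j k g' t hj hk hk1 hr hne) ?_
      intro j' k' t' hl
      simp only [List.cons.injEq, Prod.mk.injEq] at hl
      obtain ⟨⟨rfl, _⟩, _⟩ := hl
      exact hs

/-- The next group. -/
def N' : Subgroup Γ := Subgroup.closure ((M.N : Set Γ) ∪ ⋃ i ∈ M.J1, (S.H i : Set Γ))

lemma le_N' : M.N ≤ M.N' := fun _ hx => Subgroup.subset_closure (Or.inl hx)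

lemma H_le_N' {i : I} (hi : i ∈ M.J1) : S.H i ≤ M.N' := fun x hx =>
  Subgroup.subset_closure (Or.inr (Set.mem_iUnion₂.mpr ⟨i, hi, hx⟩))

lemma exists_rep {x : Γ} (hx : x ∈ M.N') : ∃ l, M.Rep x l := by
  induction hx using Subgroup.closure_induction_left with
  | one => exact ⟨[], Rep.base 1 M.N.one_mem⟩
  | mul_left a ha y hy ih =>
    obtain ⟨l, hl⟩ := ih
    rcases ha with ha | ha
    · exact ⟨_, M.rep_mul_N hl a ha⟩
    · obtain ⟨i, hi, ha⟩ := Set.mem_iUnion₂.mp ha
      exact M.rep_mul_H hl i hi a ha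
  | inv_mul_cancel a ha y hy ih =>
    obtain ⟨l, hl⟩ := ih
    rcases ha with ha | ha
    · exact ⟨_, M.rep_mul_N hl a⁻¹ (M.N.inv_mem ha)⟩
    · obtain ⟨i, hi, ha⟩ := Set.mem_iUnion₂.mp ha
      exact M.rep_mul_H hl i hi a⁻¹ ((S.H i).inv_mem ha)

/-- `x` projects near the windmill on `i`. -/
def Before (i : I) (x : V) : Prop := ∀ p ∈ M.W, S.D i x p ≤ 5 * S.κ

lemma before_W {i : I} (hi : i ∉ M.J) {x : V} (hx : x ∈ M.W) : M.Before i x := by
  intro p hp
  have := M.w4 i hi x hx p hp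
  have := κ_pos S
  linarith

lemma move {i : I} {x : V} (hb : M.Before i x) {h : Γ} (hh : h ∈ S.H i) (h1 : h ≠ 1) :
    ∀ p ∈ M.W, S.L - 5 * S.κ ≤ S.D i (h • x) p := by
  intro p hp
  have h2 := hb p hp
  have h3 := S.disp i h hh h1 x
  have h4 := S.D_tri i x p (h • x)
  rw [S.D_comm i p (h • x)] at h4
  linarith

lemma transfer {i j : I} (hi : i ∈ M.J1) (hj : j ∈ M.J1) (hs : ¬ Same S i j) {x : V}
    (hf : ∀ p ∈ M.W, S.κ ≤ S.D i x p) : M.Before j x := by
  rcases S.dich i j with h | ⟨A, B, hAB, hA, hB⟩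
  · exact absurd h hs
  obtain ⟨hj0, p, hp, q, hq, hpq⟩ := hj
  have h1 : ∃ p1 ∈ M.W, p1 ∉ B := by
    by_contra hcon
    push Not at hcon
    have := hB _ (hcon p hp) _ (hcon q hq)
    omega
  obtain ⟨p1, hp1, hp1B⟩ := h1
  have hp1A : p1 ∈ A := (hAB p1).resolve_right hp1B
  obtain ⟨-, p', hp', q', hq', hpq'⟩ := hi
  have h2 : ∃ p2 ∈ M.W, p2 ∉ A := by
    by_contra hcon
    push Not at hcon
    have := hA _ (hcon p' hp') _ (hcon q' hq')
    omega
  obtain ⟨p2, hp2, hp2A⟩ := h2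
  have hp2B : p2 ∈ B := (hAB p2).resolve_left hp2A
  have hxA : x ∉ A := by
    intro hxA
    have h3 := hA _ hxA _ hp1A
    have h4 := hf p1 hp1
    omega
  have hxB : x ∈ B := (hAB x).resolve_left hxA
  intro r hr
  have h5 := hB _ hxB _ hp2B
  have h6 := M.w4 j hj0 p2 hp2 r hr
  have h7 := S.D_tri j x p2 r
  linarith

lemma rep_head {g : Γ} {l : List (I × Γ)} (hr : M.Rep g l) : ∀ i h t, l = (i, h) :: t →
    i ∈ M.J1 := by
  intro i h t hl
  cases hr with
  | base n hn => simp at hl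
  | cons i' h' g' l' hi hh h1 hr hne =>
    simp only [List.cons.injEq, Prod.mk.injEq] at hl
    obtain ⟨⟨rfl, _⟩, _⟩ := hl
    exact hi

/-- Ping-pong: the image of a point of the windmill under an element whose normal form starts
with `(i, h)` is `h` applied to a point which projects near the windmill on `i`. -/
lemma ping {g : Γ} {l : List (I × Γ)} (hr : M.Rep g l) : ∀ i h t, l = (i, h) :: t →
    ∀ q ∈ M.W, M.Before i (h⁻¹ • g • q) := by
  induction hr with
  | base n hn => intro i h t hl; simp at hl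
  | cons i h g l hi hh h1 hr hne ih =>
    intro i' h' t' hl q hq
    simp only [List.cons.injEq, Prod.mk.injEq] at hl
    obtain ⟨⟨rfl, rfl⟩, rfl⟩ := hl
    have e : h⁻¹ • (h * g) • q = g • q := by rw [smul_smul]; simp
    rw [e]
    cases hr with
    | base n hn => exact M.before_W hi.1 (M.w1 _ hn q hq)
    | cons j k g' t hj hk hk1 hr' hne' =>
      have hs : ¬ Same S i j := hne j k t rfl
      have hb := ih j k t rfl q hq
      have hm := M.move hb hk hk1
      rw [smul_inv_smul] at hm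
      refine M.transfer hj hi (fun h => hs (Same.symm S h)) (fun p hp => ?_)
      have h2 := hm p hp
      have hκ := S.hκ
      have hL := S.hL
      linarith

/-- The indices of the next windmill. -/
def J' : Set I := {j | ∃ n ∈ M.N', ∃ i, (i ∈ M.J ∨ i ∈ M.J1) ∧ Same S (n • i) j}

lemma J'_smul {n : Γ} (hn : n ∈ M.N') {j : I} (hj : j ∈ M.J') : n • j ∈ M.J' := by
  obtain ⟨m, hm, i, hi, hs⟩ := hj
  refine ⟨n * m, M.N'.mul_mem hn hm, i, hi, ?_⟩
  have := Same.smul S hs n
  rwa [smul_smul] at this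

lemma J'_smul_not {n : Γ} (hn : n ∈ M.N') {j : I} (hj : j ∉ M.J') : n • j ∉ M.J' := by
  intro h
  have := M.J'_smul (M.N'.inv_mem hn) h
  rw [inv_smul_smul] at this
  exact hj this

lemma subset_J' {j : I} (h : j ∈ M.J ∨ j ∈ M.J1) : j ∈ M.J' :=
  ⟨1, M.N'.one_mem, j, h, by rw [one_smul]; exact Same.refl S j⟩

lemma small_W {j : I} (hj : j ∉ M.J') {p q : V} (hp : p ∈ M.W) (hq : q ∈ M.W) :
    S.D j p q < S.κ := by
  by_contra hcon
  push Not at hcon
  have h1 : j ∉ M.J := fun h => hj (M.subset_J' (Or.inl h))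
  exact hj (M.subset_J' (Or.inr ⟨h1, p, hp, q, hq, hcon⟩))

/-- The main estimate: how far apart the pieces of the next windmill can be on an index which is
not used. -/
lemma claim {g : Γ} {l : List (I × Γ)} (hr : M.Rep g l) : ∀ q ∈ M.W, ∀ j, j ∉ M.J' →
    (∃ y ∈ M.W, S.D j y (g • q) < S.κ) ∨
    (∃ i h t, l = (i, h) :: t ∧ ∀ x, M.Before i x → S.D j x (g • q) < 3 * S.κ) := by
  induction hr with
  | base n hn =>
    intro q hq j hj
    left
    refine ⟨n • q, M.w1 n hn q hq, ?_⟩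
    rw [S.D_self]
    exact κ_pos S
  | cons i h g l hi hh h1 hr hne ih =>
    intro q hq j hj
    have hrep : M.Rep (h * g) ((i, h) :: l) := Rep.cons i h g l hi hh h1 hr hne
    have hκ := S.hκ
    have hL := S.hL
    have hij : ¬ Same S i j := by
      intro hs
      exact hj (M.subset_J' (Or.inr (M.J1_same hi hs)))
    rcases S.dich i j with hs | ⟨A, B, hAB, hA, hB⟩
    · exact absurd hs hij
    by_cases hα : ∃ x, M.Before i x ∧ x ∈ A
    · left
      obtain ⟨x, hx, hxA⟩ := hα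
      have hbq := M.ping hrep i h l rfl q hq
      have hcq : (h * g) • q ∉ A := by
        intro hcA
        have h2 := hA _ hcA _ hxA
        have h3 := M.move hbq hh h1 S.v0 M.w0
        rw [smul_inv_smul] at h3
        have h4 := hx S.v0 M.w0
        have h5 := S.D_tri i ((h * g) • q) x S.v0
        linarith
      have hqB : (h * g) • q ∈ B := (hAB _).resolve_left hcq
      obtain ⟨-, p', hp', q', hq', hpq'⟩ := hi
      have h2 : ∃ p2 ∈ M.W, p2 ∉ A := by
        by_contra hcon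
        push Not at hcon
        have := hA _ (hcon p' hp') _ (hcon q' hq')
        omega
      obtain ⟨p2, hp2, hp2A⟩ := h2
      have hp2B : p2 ∈ B := (hAB p2).resolve_left hp2A
      exact ⟨p2, hp2, hB _ hp2B _ hqB⟩
    · right
      push Not at hα
      refine ⟨i, h, l, rfl, ?_⟩
      intro x hx
      have hxB : x ∈ B := (hAB x).resolve_left (hα x hx)
      have hhN : h⁻¹ ∈ M.N' := M.N'.inv_mem (M.H_le_N' hi hh)
      have hj' : h⁻¹ • j ∉ M.J' := M.J'_smul_not hhN hj
      have hc : ∀ y z, S.D (h⁻¹ • j) y z = S.D j (h • y) (h • z) := by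
        intro y z; rw [D_smul']; simp
      rcases ih q hq (h⁻¹ • j) hj' with ⟨y, hy, hyq⟩ | ⟨i2, h2, t, hl, hfar⟩
      · rw [hc, smul_smul] at hyq
        obtain ⟨-, p', hp', q', hq', hpq'⟩ := hi
        have h2 : ∃ y1 ∈ M.W, h • y1 ∉ A := by
          by_contra hcon
          push Not at hcon
          have h3 := hA _ (hcon p' hp') _ (hcon q' hq')
          rw [S.D_H i h hh] at h3
          omega
        obtain ⟨y1, hy1, hy1A⟩ := h2
        have hy1B : h • y1 ∈ B := (hAB _).resolve_left hy1A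
        have e1 := hB _ hxB _ hy1B
        have e2 := M.small_W hj' hy1 hy
        rw [hc] at e2
        have e3 := S.D_tri j x (h • y1) ((h * g) • q)
        have e4 := S.D_tri j (h • y1) (h • y) ((h * g) • q)
        linarith
      · subst hl
        have hs2 : ¬ Same S i i2 := hne i2 h2 t rfl
        have hi2 : i2 ∈ M.J1 := M.rep_head hr i2 h2 t rfl
        have hb : M.Before i2 (h⁻¹ • x) := by
          refine M.transfer hi hi2 hs2 (fun p hp => ?_)
          have h3 := M.move hx ((S.H i).inv_mem hh) (inv_ne_one.mpr h1) p hp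
          linarith
        have h3 := hfar _ hb
        rw [hc, smul_inv_smul, smul_smul] at h3
        exact h3

/-- The next windmill. -/
def next : Mill S where
  W := {q | ∃ n ∈ M.N', ∃ p ∈ M.W, S.nr (n • p) q}
  N := M.N'
  J := M.J'
  w0 := ⟨1, M.N'.one_mem, S.v0, M.w0, by rw [one_smul]; exact S.nr_refl _⟩
  w1 := by
    rintro n hn q ⟨m, hm, p, hp, hd⟩
    refine ⟨n * m, M.N'.mul_mem hn hm, p, hp, ?_⟩
    rw [← smul_smul]
    exact S.nr_smul n _ _ hd
  w2 := by
    rintro j ⟨n, hn, i, hi, hs⟩ x hx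
    rw [← hs.1, mem_H_smul] at hx
    have h1 : n⁻¹ * x * n ∈ M.N' := by
      rcases hi with hi | hi
      · exact M.le_N' (M.w2 i hi hx)
      · exact M.H_le_N' hi hx
    have h2 := M.N'.mul_mem (M.N'.mul_mem hn h1) (M.N'.inv_mem hn)
    have e : n * (n⁻¹ * x * n) * n⁻¹ = x := by group
    rwa [e] at h2
  w4 := by
    rintro j hj p' ⟨n, hn, p, hp, hdp⟩ q' ⟨m, hm, q, hq, hdq⟩
    have hκ := S.hκ
    have hj' : n⁻¹ • j ∉ M.J' := M.J'_smul_not (M.N'.inv_mem hn) hj
    have hc : ∀ y z, S.D (n⁻¹ • j) y z = S.D j (n • y) (n • z) := by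
      intro y z; rw [D_smul']; simp
    obtain ⟨l, hl⟩ := M.exists_rep (M.N'.mul_mem (M.N'.inv_mem hn) hm)
    have e0 : n • (n⁻¹ * m) • q = m • q := by rw [smul_smul]; simp
    have key : S.D j (n • p) (m • q) < 3 * S.κ := by
      rcases M.claim hl q hq _ hj' with ⟨y, hy, hyq⟩ | ⟨i, h, t, hl', hfar⟩
      · have h1 := M.small_W hj' hp hy
        rw [hc] at h1 hyq
        rw [e0] at hyq
        have h2 := S.D_tri j (n • p) (n • y) (m • q)
        linarith
      · subst hl'
        have hi : i ∈ M.J1 := M.rep_head hl i h t rfl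
        have h1 := hfar p (M.before_W hi.1 hp)
        rw [hc, e0] at h1
        exact h1
    have h1 := S.nr_D j (n • p) p' hdp
    have h2 := S.nr_D j (m • q) q' hdq
    rw [S.D_comm] at h1
    have a3 := S.D_tri j p' (n • p) q'
    have a4 := S.D_tri j (n • p) (m • q) q'
    linarith
  w5 := fun n hn i hi => M.J'_smul hn hi
  w6 := by
    intro h hh h1
    obtain ⟨l, hl⟩ := M.exists_rep hh
    cases hl with
    | base n hn => exact M.w6 _ hn h1
    | cons i k g t hi hk hk1 hr hne =>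
      refine ⟨i, k⁻¹, (S.H i).inv_mem hk, ?_, ?_⟩
      · have hb := M.ping (Rep.cons i k g t hi hk hk1 hr hne) i k t rfl S.v0 M.w0
        have hm := M.move hb hk hk1 S.v0 M.w0
        rw [smul_inv_smul, S.D_comm] at hm
        exact hm
      · have hb := M.ping (Rep.cons i k g t hi hk hk1 hr hne) i k t rfl S.v0 M.w0 S.v0 M.w0
        rw [S.D_comm] at hb
        exact hb
  w7 := by
    rintro i ⟨n, hn, i', hi', hs⟩ j hij
    exact ⟨n, hn, i', hi', Same.trans S hs hij⟩

end Mill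

/-- The first windmill. -/
def start : Mill S where
  W := {S.v0}
  N := ⊥
  J := ∅
  w0 := rfl
  w1 := by
    intro n hn p hp
    rw [Subgroup.mem_bot] at hn
    subst hn
    simpa using hp
  w2 := by simp
  w4 := by
    rintro i - p rfl q rfl
    have := κ_pos S
    rw [S.D_self]
    linarith
  w5 := by simp
  w6 := by
    intro h hh h1
    exact absurd (Subgroup.mem_bot.mp hh) h1
  w7 := by simp

/-- The sequence of windmills. -/
def mill (n : ℕ) : Mill S := (fun M => M.next)^[n] (start S)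

lemma mill_succ (n : ℕ) : mill S (n + 1) = (mill S n).next := by
  rw [mill, Function.iterate_succ_apply']; rfl

lemma mill_ball (n : ℕ) : ∀ q, S.b q ≤ n → q ∈ (mill S n).W := by
  induction n with
  | zero =>
    intro q hq
    have := S.b0 q (Nat.le_zero.1 hq)
    subst this
    exact (mill S 0).w0
  | succ n ih =>
    intro q hq
    obtain ⟨p, hp, hpq⟩ := S.bs n q hq
    rw [mill_succ]
    exact ⟨1, (mill S n).N'.one_mem, p, ih p hp, by rwa [one_smul]⟩

lemma mill_N_mono {m n : ℕ} (h : m ≤ n) : (mill S m).N ≤ (mill S n).N := by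
  induction n, h using Nat.le_induction with
  | base => exact le_rfl
  | succ k _ ih =>
    rw [mill_succ]
    exact ih.trans (mill S k).le_N'

lemma mill_W_mono {m n : ℕ} (h : m ≤ n) : (mill S m).W ⊆ (mill S n).W := by
  induction n, h using Nat.le_induction with
  | base => exact le_rfl
  | succ k _ ih =>
    rw [mill_succ]
    intro q hq
    exact ⟨1, (mill S k).N'.one_mem, q, ih hq, by rw [one_smul]; exact S.nr_refl _⟩

lemma exists_H_le (i : I) : ∃ n, S.H i ≤ (mill S n).N := by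
  by_cases hbot : S.H i = ⊥
  · exact ⟨0, by rw [hbot]; exact bot_le⟩
  obtain ⟨h, hh, h1⟩ := (Subgroup.bot_or_exists_ne_one (S.H i)).resolve_left hbot
  set n := S.b (h • S.v0) with hn
  refine ⟨n + 1, ?_⟩
  have hp := (mill S n).w0
  have hq := mill_ball S n _ (le_of_eq hn.symm)
  have hi : i ∈ (mill S (n + 1)).J := by
    rw [mill_succ]
    refine (mill S n).subset_J' ?_
    by_cases h' : i ∈ (mill S n).J
    · exact Or.inl h'
    · refine Or.inr ⟨h', S.v0, hp, h • S.v0, hq, ?_⟩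
      have h2 := S.disp i h hh h1 S.v0
      have hκ := S.hκ
      have hL := S.hL
      linarith
  exact (mill S (n + 1)).w2 i hi

/-- **Weak Greendlinger lemma**, abstract form. -/
theorem windmill (h : Γ) (hh : h ∈ ⨆ i, S.H i) (h1 : h ≠ 1) :
    ∃ i, ∃ k ∈ S.H i, S.L - 5 * S.κ ≤ S.D i S.v0 (h • S.v0) ∧
      S.D i S.v0 (k • h • S.v0) ≤ 5 * S.κ := by
  have key : ∃ n, h ∈ (mill S n).N := by
    have hdir : Directed (· ≤ ·) fun n => (mill S n).N :=
      (show Monotone fun n => (mill S n).N from fun a b hab => mill_N_mono S hab).directed_le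
    have hle : (⨆ i, S.H i) ≤ ⨆ n, (mill S n).N := by
      refine iSup_le fun i => ?_
      obtain ⟨n, hn⟩ := exists_H_le S i
      exact hn.trans (le_iSup (fun n => (mill S n).N) n)
    exact (Subgroup.mem_iSup_of_directed hdir).mp (hle hh)
  obtain ⟨n, hn⟩ := key
  exact (mill S n).w6 h hn h1

end FamW

/-- **WIN** -/
theorem WIN.{u, v, w} : S_WIN.{u, v, w} := by
  intro Γ V I _ _ _ S g hg h1
  exact FamW.windmill S g hg h1

end Pool.Agent.L0h72.AL
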