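import Pool.Agent.L0h29.AL.Defs2
import Pool.Agent.L0h72.AL.DIH

set_option autoImplicit false

/-!
# Project AL2, IMG: a length function on a quotient of the dihedral Artin group
-/

namespace Pool.Agent.L0h72.AL

open Pool.Agent.L0h29.AL Pool.Agent.K7.H20.AW Monoid

namespace Dih

variable {N : Bool → ℕ}

/-- the number of `ρ`-syllables -/
def cw (T : CoprodI.Word (fun b : Bool => Multiplicative (ZMod (N b)))) : ℕ :=
  (T.toList.map Sigma.fst).count true

lemma cw_empty : cw (N := N) CoprodI.Word.empty = 0 := by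
  simp [cw, CoprodI.Word.empty]

lemma cw_cons (i : Bool) (x : Multiplicative (ZMod (N i)))
    (T : CoprodI.Word (fun b : Bool => Multiplicative (ZMod (N b)))) (h1 : T.fstIdx ≠ some i)
    (h2 : x ≠ 1) : cw (CoprodI.Word.cons x T h1 h2) = (if i then 1 else 0) + cw T := by
  unfold cw CoprodI.Word.cons
  rw [List.map_cons, List.count_cons, add_comm]
  cases i <;> simp

open Classical in
lemma cw_smul (i : Bool) (x : Multiplicative (ZMod (N i)))
    (T : CoprodI.Word (fun b : Bool => Multiplicative (ZMod (N b)))) :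
    cw (CoprodI.of (M := fun b : Bool => Multiplicative (ZMod (N b))) x • T) ≤
      (if i then 1 else 0) + cw T := by
  have h1 : ∀ p : CoprodI.Word.Pair (fun b : Bool => Multiplicative (ZMod (N b))) i,
      cw (CoprodI.Word.rcons p) ≤ (if i then 1 else 0) + cw p.tail ∧
      cw p.tail ≤ cw (CoprodI.Word.rcons p) := by
    intro p
    unfold CoprodI.Word.rcons
    by_cases h : p.head = 1
    · rw [dif_pos h]
      exact ⟨by omega, le_refl _⟩
    · rw [dif_neg h, cw_cons]
      exact ⟨le_refl _, by omega⟩
  rw [CoprodI.Word.of_smul_def]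
  refine (h1 _).1.trans ?_
  have h2 := (h1 (CoprodI.Word.equivPair i T)).2
  rw [← CoprodI.Word.equivPair_symm, Equiv.symm_apply_apply] at h2
  exact Nat.add_le_add_left h2 _

/-- the length function -/
noncomputable def ln (g : FP N) : ℕ := by
  classical
  exact cw (g • (CoprodI.Word.empty : CoprodI.Word (fun b : Bool => Multiplicative (ZMod (N b)))))

lemma ln_one : ln (1 : FP N) = 0 := by
  unfold ln
  rw [one_smul]
  exact cw_empty

open Classical in
lemma cw_list (L : List (Σ b : Bool, Multiplicative (ZMod (N b))))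
    (T : CoprodI.Word (fun b : Bool => Multiplicative (ZMod (N b)))) :
    cw ((L.map fun l => CoprodI.of (M := fun b : Bool => Multiplicative (ZMod (N b))) l.2).prod • T)
      ≤ (L.map Sigma.fst).count true + cw T := by
  induction L with
  | nil => simp
  | cons a L ih =>
    rw [List.map_cons, List.prod_cons, mul_smul, List.map_cons, List.count_cons]
    refine (cw_smul _ _ _).trans ?_
    have h1 : (if a.fst = true then 1 else 0) = if a.fst == true then 1 else 0 := by
      cases a.1 <;> rfl
    rw [h1]
    omega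

open Classical in
lemma eq_prod (g : FP N) : (g • (CoprodI.Word.empty :
    CoprodI.Word (fun b : Bool => Multiplicative (ZMod (N b))))).prod = g :=
  CoprodI.Word.equiv.left_inv g

open Classical in
lemma smul_prod (T : CoprodI.Word (fun b : Bool => Multiplicative (ZMod (N b)))) :
    T.prod • (CoprodI.Word.empty :
      CoprodI.Word (fun b : Bool => Multiplicative (ZMod (N b)))) = T :=
  CoprodI.Word.equiv.right_inv T

lemma ln_prod (T : CoprodI.Word (fun b : Bool => Multiplicative (ZMod (N b)))) :
    ln T.prod = cw T := by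
  unfold ln
  rw [smul_prod]

lemma ln_mul (a b : FP N) : ln (a * b) ≤ ln a + ln b := by
  classical
  unfold ln
  rw [mul_smul]
  set T := b • (CoprodI.Word.empty : CoprodI.Word (fun b : Bool => Multiplicative (ZMod (N b))))
    with hT
  have h1 := cw_list (N := N) (a • (CoprodI.Word.empty :
    CoprodI.Word (fun b : Bool => Multiplicative (ZMod (N b))))).toList T
  have h2 : (((a • (CoprodI.Word.empty :
      CoprodI.Word (fun b : Bool => Multiplicative (ZMod (N b))))).toList.map fun l =>
      CoprodI.of (M := fun b : Bool => Multiplicative (ZMod (N b))) l.2).prod) = a := eq_prod a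
  rw [h2] at h1
  exact h1

lemma ln_el (i : Bool) (k : ℤ) : ln (el N i k) ≤ if i then 1 else 0 := by
  have h1 := cw_list (N := N) [⟨i, Multiplicative.ofAdd (k : ZMod (N i))⟩] CoprodI.Word.empty
  rw [cw_empty] at h1
  have h2 : ln (el N i k) ≤ List.count true (List.map Sigma.fst
      [(⟨i, Multiplicative.ofAdd (k : ZMod (N i))⟩ :
        Σ b : Bool, Multiplicative (ZMod (N b)))]) + 0 := by
    refine le_trans (le_of_eq ?_) h1
    unfold ln el
    simp
  refine h2.trans ?_
  cases i <;> simp

lemma ln_lam (c : Bool) (e : ℤ) : ln (lam N c e) ≤ 1 := by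
  have h1 := ln_el (N := N) true e
  have h2 := ln_el (N := N) false 1
  simp only [if_true, Bool.false_eq_true, if_false] at h1 h2
  cases c with
  | true =>
    have h3 := ln_mul (el N true e) (el N false 1)
    simp only [lam, if_true]
    omega
  | false =>
    have h3 := ln_mul (el N false 1) (el N true e)
    simp only [lam, Bool.false_eq_true, if_false]
    omega

/-- the state with the number of the further runs -/
def StL (c : Bool) (e : ℤ) (p : ℤ) (r : ℕ) (g : FP N) : Prop :=
  ∃ T : CoprodI.Word (fun b : Bool => Multiplicative (ZMod (N b))), T.fstIdx ≠ some true ∧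
    cw T = r ∧ g = (if c then 1 else el N false 1) * el N true (e * p) * T.prod

lemma cons_nuL (h2 : N false = 2)
    (T : CoprodI.Word (fun b : Bool => Multiplicative (ZMod (N b)))) (hT : T.fstIdx ≠ some false) :
    ∃ T' : CoprodI.Word (fun b : Bool => Multiplicative (ZMod (N b))),
      T'.fstIdx = some false ∧ cw T' = cw T ∧ T'.prod = el N false 1 * T.prod := by
  refine ⟨CoprodI.Word.cons (Multiplicative.ofAdd ((1 : ℤ) : ZMod (N false))) T hT
    (ne_one N false 1 (not1 h2)), CoprodI.Word.fstIdx_cons _ _ _ _, ?_, ?_⟩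
  · rw [cw_cons]
    simp
  · rw [CoprodI.Word.prod_cons]
    rfl

lemma cons_rhoL (k : ℤ) (hk : ¬ (N true : ℤ) ∣ k)
    (T : CoprodI.Word (fun b : Bool => Multiplicative (ZMod (N b)))) (hT : T.fstIdx ≠ some true) :
    ∃ T' : CoprodI.Word (fun b : Bool => Multiplicative (ZMod (N b))),
      T'.fstIdx = some true ∧ cw T' = cw T + 1 ∧ T'.prod = el N true k * T.prod := by
  refine ⟨CoprodI.Word.cons (Multiplicative.ofAdd ((k : ℤ) : ZMod (N true))) T hT
    (ne_one N true k hk), CoprodI.Word.fstIdx_cons _ _ _ _, ?_, ?_⟩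
  · rw [cw_cons]
    simp [add_comm]
  · rw [CoprodI.Word.prod_cons]
    rfl

lemma stL_start (h2 : N false = 2) (c : Bool) (e : ℤ) : StL c e 1 0 (lam N c e) := by
  cases c with
  | true =>
    obtain ⟨T, hT, hc, hp⟩ := cons_nuL h2 CoprodI.Word.empty (by simp [CoprodI.Word.fstIdx,
      CoprodI.Word.empty])
    refine ⟨T, by rw [hT]; simp, by rw [hc, cw_empty], ?_⟩
    rw [hp, CoprodI.Word.prod_empty]
    simp [lam]
  | false =>
    refine ⟨CoprodI.Word.empty, by simp [CoprodI.Word.fstIdx, CoprodI.Word.empty], cw_empty, ?_⟩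
    rw [CoprodI.Word.prod_empty]
    simp [lam]

lemma stL_extend (h2 : N false = 2) {c : Bool} {e p : ℤ} {r : ℕ} {g : FP N}
    (h : StL (!c) e p r g) : StL c e (p + 1) r (lam N c e * g) := by
  obtain ⟨T, hT, hc, rfl⟩ := h
  refine ⟨T, hT, hc, ?_⟩
  have e1 : e * (p + 1) = e + e * p := by ring
  rw [e1, el_add]
  cases c with
  | true =>
    simp only [lam, if_true, Bool.not_true, Bool.false_eq_true, if_false, one_mul]
    calc el N true e * el N false 1 * (el N false 1 * el N true (e * p) * T.prod) =
        el N true e * (el N false 1 * el N false 1) * el N true (e * p) * T.prod := by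
          simp only [mul_assoc]
      _ = _ := by rw [nn h2, mul_one]
  | false =>
    simp only [lam, if_true, Bool.not_false, Bool.false_eq_true, if_false, one_mul]
    simp only [mul_assoc]

lemma stL_break (h2 : N false = 2) {c : Bool} (e : ℤ) {d p : ℤ} {r : ℕ} {g : FP N}
    (hp : ¬ (N true : ℤ) ∣ d * p) (h : StL c d p r g) :
    StL c e 1 (r + 1) (lam N c e * g) := by
  obtain ⟨T, hT, hc, rfl⟩ := h
  obtain ⟨T1, hT1, hc1, hp1⟩ := cons_rhoL (d * p) hp T hT
  obtain ⟨T2, hT2, hc2, hp2⟩ := cons_nuL h2 T1 (by rw [hT1]; simp)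
  refine ⟨T2, by rw [hT2]; simp, by rw [hc2, hc1, hc], ?_⟩
  rw [hp2, hp1, mul_one]
  cases c with
  | true => simp [lam, mul_assoc]
  | false => simp [lam, mul_assoc]

lemma stL_ln (h2 : N false = 2) {c : Bool} {e p : ℤ} {r : ℕ} {g : FP N}
    (hp : ¬ (N true : ℤ) ∣ e * p) (h : StL c e p r g) : ln g = r + 1 := by
  obtain ⟨T, hT, hc, rfl⟩ := h
  obtain ⟨T1, hT1, hc1, hp1⟩ := cons_rhoL (e * p) hp T hT
  cases c with
  | true =>
    rw [if_pos rfl, one_mul, ← hp1, ln_prod, hc1, hc]
  | false =>
    obtain ⟨T2, hT2, hc2, hp2⟩ := cons_nuL h2 T1 (by rw [hT1]; simp)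
    have h3 : (if (false : Bool) = true then (1 : FP N) else el N false 1) *
        el N true (e * p) * T.prod = T2.prod := by
      rw [hp2, hp1, ← mul_assoc]
      simp
    rw [h3, ln_prod, hc2, hc1, hc]

/-- the sign of a letter -/
def sg (b : Bool) : ℤ := if b then 1 else -1

lemma sg_cases (b : Bool) : sg b = 1 ∨ sg b = -1 := by
  cases b <;> simp [sg]

lemma phi_letter (h2 : N false = 2) (x b : Bool) (w : List (Bool × Bool)) :
    phi N (FreeGroup.mk ((x, b) :: w)) = lam N (x == b) (sg b) * phi N (FreeGroup.mk w) := by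
  have h1 : FreeGroup.mk ((x, b) :: w) = FreeGroup.mk [(x, b)] * FreeGroup.mk w := by
    rw [FreeGroup.mul_mk]
    rfl
  rw [h1, map_mul]
  congr 1
  cases b with
  | true =>
    have h3 : (FreeGroup.mk [(x, true)] : FreeGroup Bool) = FreeGroup.of x := rfl
    rw [h3, phi_of]
    cases x <;> rfl
  | false =>
    have h3 : (FreeGroup.mk [(x, false)] : FreeGroup Bool) = (FreeGroup.of x)⁻¹ := rfl
    rw [h3, map_inv, phi_of, lam_inv h2]
    cases x <;> rfl

lemma runs (h2 : N false = 2) (h3 : 2 ≤ N true) : ∀ (w : List (Bool × Bool)) (x b : Bool),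
    FreeGroup.IsReduced ((x, b) :: w) →
    (∀ (u v : List (Bool × Bool)) (σ τ : Bool), (x, b) :: w ≠ u ++ altw σ (N true) τ ++ v) →
    ∃ (p r : ℕ) (w' : List (Bool × Bool)), 1 ≤ p ∧ p < N true ∧
      (x, b) :: w = altw b p x ++ w' ∧ ((x, b) :: w).length ≤ p + N true * r ∧
      StL (x == b) (sg b) p r (phi N (FreeGroup.mk ((x, b) :: w))) := by
  intro w
  induction w with
  | nil =>
    intro x b _ _
    refine ⟨1, 0, [], le_refl _, by omega, rfl, by simp, ?_⟩
    rw [phi_letter h2]
    have h4 : phi N (FreeGroup.mk ([] : List (Bool × Bool))) = 1 := by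
      rw [← FreeGroup.one_eq_mk, map_one]
    rw [h4, mul_one]
    exact_mod_cast stL_start h2 (x == b) (sg b)
  | cons a w ih =>
    obtain ⟨y, b'⟩ := a
    intro x b hr hn
    rw [FreeGroup.isReduced_cons_cons] at hr
    obtain ⟨hr1, hr2⟩ := hr
    dsimp only at hr1
    obtain ⟨p, r, w', hp1, hp2, hw, hlen, hst⟩ := ih y b' hr2 (by
      intro u v σ τ h
      refine hn ((x, b) :: u) v σ τ ?_
      rw [h]
      rfl)
    rw [phi_letter h2]
    by_cases hc : x ≠ y ∧ b = b'
    · obtain ⟨hxy, hb⟩ := hc
      subst hb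
      have hy : y = !x := by
        revert hxy
        cases x <;> cases y <;> simp
      have hw2 : (x, b) :: (y, b) :: w = altw b (p + 1) x ++ w' := by
        rw [hw, hy]
        rfl
      have hp3 : p + 1 ≠ N true := by
        intro h
        refine hn [] w' b x ?_
        rw [← h, hw2]
        rfl
      refine ⟨p + 1, r, w', by omega, by omega, hw2, ?_, ?_⟩
      · rw [List.length_cons]
        omega
      · have e1 : (y == b) = !(x == b) := by
          rw [hy]
          cases x <;> cases b <;> rfl
        rw [e1] at hst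
        have := stL_extend h2 hst
        push_cast
        exact this
    · refine ⟨1, r + 1, (y, b') :: w, le_refl _, by omega, rfl, ?_, ?_⟩
      · rw [List.length_cons]
        have : N true * (r + 1) = N true * r + N true := by ring
        omega
      · have e1 : (y == b') = (x == b) := by
          revert hc hr1
          cases x <;> cases y <;> cases b <;> cases b' <;> simp
        rw [e1] at hst
        have := stL_break h2 (sg b) (not_dvd (sg_cases b') hp1 hp2) hst
        push_cast
        exact this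

end Dih

/-- **IMG** -/
theorem IMG : S_IMG := by
  intro m hm
  set N : Bool → ℕ := fun b => cond b m 2 with hN
  have h2 : N false = 2 := rfl
  have h3 : N true = m := rfl
  refine ⟨Dih.FP N, inferInstance, Dih.phi N, Dih.ln, ?_, Dih.ln_one, Dih.ln_mul, ?_, ?_⟩
  · have := Dih.phi_rm (N := N) h2
    rwa [h3] at this
  · intro τ
    constructor
    · rw [Dih.phi_of]
      exact Dih.ln_lam _ _
    · rw [map_inv, Dih.phi_of, Dih.lam_inv h2]
      exact Dih.ln_lam _ _
  · intro w hw hn
    rw [← h3] at hn ⊢
    match w, hw, hn with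
    | [], _, _ => simp
    | (x, b) :: w, hw, hn =>
      obtain ⟨p, r, w', hp1, hp2, _, hlen, hst⟩ := Dih.runs h2 (by rw [h3]; exact hm) w x b hw hn
      rw [Dih.stL_ln h2 (Dih.not_dvd (Dih.sg_cases b) hp1 hp2) hst]
      have : N true * (r + 1) = N true * r + N true := by ring
      omega

end Pool.Agent.L0h72.AL
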