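import Pool.Agent.L0h29.AL.Defs2
import Pool.Agent.L0h72.AL.IMG

set_option autoImplicit false

/-!
# Project AL2, DAR: relations of the dihedral Artin group have controlled area
-/

namespace Pool.Agent.L0h72.AL

open Pool.Agent.L0h29.AL Pool.Agent.K7.H20.AW

namespace Dar

/-- `g` is a product of at most `k` conjugates of the relator with conjugators of length `≤ L` -/
def Ar (m k L : ℕ) (g : FreeGroup Bool) : Prop :=
  ∃ c : List (List (Bool × Bool) × Bool), c.length ≤ k ∧ (∀ p ∈ c, p.1.length ≤ L) ∧
    g = cj (rm m) (c.map fun p => (FreeGroup.mk p.1, p.2))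

lemma cj_append {G : Type*} [Group G] (r : G) (c d : List (G × Bool)) :
    cj r (c ++ d) = cj r c * cj r d := by
  unfold cj
  rw [List.map_append, List.prod_append]

lemma cj_cons {G : Type*} [Group G] (r : G) (p : G × Bool) (c : List (G × Bool)) :
    cj r (p :: c) = p.1 * (if p.2 then r else r⁻¹) * p.1⁻¹ * cj r c := by
  unfold cj
  rw [List.map_cons, List.prod_cons]

lemma ar_one (m L : ℕ) : Ar m 0 L 1 := ⟨[], by simp, by simp, by simp [cj]⟩

lemma ar_mono {m k L k' L' : ℕ} {g : FreeGroup Bool} (h : Ar m k L g) (hk : k ≤ k')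
    (hL : L ≤ L') : Ar m k' L' g := by
  obtain ⟨c, h1, h2, h3⟩ := h
  exact ⟨c, h1.trans hk, fun p hp => (h2 p hp).trans hL, h3⟩

lemma ar_mul {m k L k' : ℕ} {g h : FreeGroup Bool} (hg : Ar m k L g) (hh : Ar m k' L h) :
    Ar m (k + k') L (g * h) := by
  obtain ⟨c, h1, h2, h3⟩ := hg
  obtain ⟨d, h4, h5, h6⟩ := hh
  refine ⟨c ++ d, by rw [List.length_append]; omega, ?_, ?_⟩
  · intro p hp
    rw [List.mem_append] at hp
    rcases hp with hp | hp
    · exact h2 p hp
    · exact h5 p hp
  · rw [List.map_append, cj_append, h3, h6]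

lemma ar_single (m L : ℕ) (u : List (Bool × Bool)) (hu : u.length ≤ L) (b : Bool) :
    Ar m 1 L (FreeGroup.mk u * (if b then rm m else (rm m)⁻¹) * (FreeGroup.mk u)⁻¹) := by
  refine ⟨[(u, b)], by simp, by simpa using hu, ?_⟩
  simp [cj]

lemma ar_inv {m k L : ℕ} {g : FreeGroup Bool} (h : Ar m k L g) : Ar m k L g⁻¹ := by
  obtain ⟨c, h1, h2, h3⟩ := h
  have key : ∀ c : List (List (Bool × Bool) × Bool), (∀ p ∈ c, p.1.length ≤ L) →
      Ar m c.length L (cj (rm m) (c.map fun p => (FreeGroup.mk p.1, p.2)))⁻¹ := by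
    intro c
    induction c with
    | nil =>
      intro _
      have : (cj (rm m) (([] : List (List (Bool × Bool) × Bool)).map fun p =>
        (FreeGroup.mk p.1, p.2)))⁻¹ = 1 := by simp [cj]
      rw [this]
      exact ar_one m L
    | cons p c ih =>
      intro hc
      rw [List.map_cons, cj_cons, mul_inv_rev, List.length_cons]
      refine ar_mul (ih fun q hq => hc q (List.mem_cons_of_mem _ hq)) ?_
      have h4 := ar_single m L p.1 (hc p (by simp)) (!p.2)
      have h5 : (FreeGroup.mk p.1 * (if p.2 then rm m else (rm m)⁻¹) * (FreeGroup.mk p.1)⁻¹)⁻¹ =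
          FreeGroup.mk p.1 * (if (!p.2) = true then rm m else (rm m)⁻¹) *
            (FreeGroup.mk p.1)⁻¹ := by
        cases p.2 <;> simp [mul_assoc]
      rw [h5]
      exact h4
  rw [h3]
  exact ar_mono (key c h2) h1 (le_refl _)

lemma ar_conj {m k L : ℕ} {g : FreeGroup Bool} (u : List (Bool × Bool)) (h : Ar m k L g) :
    Ar m k (u.length + L) (FreeGroup.mk u * g * (FreeGroup.mk u)⁻¹) := by
  obtain ⟨c, h1, h2, h3⟩ := h
  have key : ∀ c : List (List (Bool × Bool) × Bool), (∀ p ∈ c, p.1.length ≤ L) →
      Ar m c.length (u.length + L)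
        (FreeGroup.mk u * (cj (rm m) (c.map fun p => (FreeGroup.mk p.1, p.2))) *
          (FreeGroup.mk u)⁻¹) := by
    intro c
    induction c with
    | nil =>
      intro _
      have : FreeGroup.mk u * (cj (rm m) (([] : List (List (Bool × Bool) × Bool)).map fun p =>
        (FreeGroup.mk p.1, p.2))) * (FreeGroup.mk u)⁻¹ = 1 := by
        unfold cj
        rw [List.map_nil, List.map_nil, List.prod_nil, mul_one, mul_inv_cancel]
      rw [this]
      exact ar_one m _
    | cons p c ih =>
      intro hc
      rw [List.map_cons, cj_cons, List.length_cons, add_comm c.length 1]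
      set X := cj (rm m) (c.map fun p => (FreeGroup.mk p.1, p.2)) with hX
      have h5 : FreeGroup.mk u * (FreeGroup.mk p.1 * (if p.2 then rm m else (rm m)⁻¹) *
          (FreeGroup.mk p.1)⁻¹ * X) * (FreeGroup.mk u)⁻¹ =
          (FreeGroup.mk (u ++ p.1) * (if p.2 then rm m else (rm m)⁻¹) *
            (FreeGroup.mk (u ++ p.1))⁻¹) * (FreeGroup.mk u * X * (FreeGroup.mk u)⁻¹) := by
        rw [← FreeGroup.mul_mk]
        group
      rw [h5]
      refine ar_mul (ar_single m _ (u ++ p.1) ?_ p.2)
        (ih fun q hq => hc q (List.mem_cons_of_mem _ hq))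
      rw [List.length_append]
      have := hc p (by simp)
      omega
  rw [h3]
  exact ar_mono (key c h2) h1 (le_refl _)

lemma ar_mem {m k L : ℕ} {g : FreeGroup Bool} (h : Ar m k L g) :
    g ∈ Subgroup.normalClosure {rm m} := by
  obtain ⟨c, h1, h2, h3⟩ := h
  have key : ∀ c : List (List (Bool × Bool) × Bool),
      cj (rm m) (c.map fun p => (FreeGroup.mk p.1, p.2)) ∈ Subgroup.normalClosure {rm m} := by
    intro c
    induction c with
    | nil =>
      have : cj (rm m) (([] : List (List (Bool × Bool) × Bool)).map fun p =>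
        (FreeGroup.mk p.1, p.2)) = 1 := by simp [cj]
      rw [this]
      exact Subgroup.one_mem _
    | cons p c ih =>
      rw [List.map_cons, cj_cons]
      refine Subgroup.mul_mem _ ?_ ih
      have h4 : rm m ∈ Subgroup.normalClosure {rm m} :=
        Subgroup.subset_normalClosure (Set.mem_singleton _)
      refine Subgroup.Normal.conj_mem inferInstance _ ?_ _
      cases p.2 with
      | true => simpa using h4
      | false => simpa using h4
  rw [h3]
  exact key c

/-! ### the Garside element -/

/-- the last letter -/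
lemma alt_last {G : Type*} [Monoid G] (m : ℕ) : ∀ a b : G,
    altProd (m + 1) a b = altProd m a b * (if Even m then a else b) := by
  induction m with
  | zero => intro a b; simp [altProd]
  | succ m ih =>
    intro a b
    have h1 : altProd (m + 1 + 1) a b = a * altProd (m + 1) b a := rfl
    have h2 : altProd (m + 1) a b = a * altProd m b a := rfl
    rw [h1, ih b a, h2, mul_assoc]
    congr 2
    by_cases h : Even m
    · rw [if_pos h, if_neg (by rw [Nat.even_add_one]; simpa using h)]
    · rw [if_neg h, if_pos (by rw [Nat.even_add_one]; exact h)]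

/-- the Garside element -/
def De (m : ℕ) : FreeGroup Bool := altProd m (FreeGroup.of true) (FreeGroup.of false)

/-- the other word -/
def De' (m : ℕ) : FreeGroup Bool := altProd m (FreeGroup.of false) (FreeGroup.of true)

lemma rm_eq (m : ℕ) : rm m = De m * (De' m)⁻¹ := rfl

/-- conjugation by the Garside element -/
def star (m : ℕ) (x : Bool) : Bool := if Even m then x else !x

lemma star_star (m : ℕ) (x : Bool) : star m (star m x) = x := by
  unfold star
  split_ifs <;> simp

lemma de_true (m : ℕ) : FreeGroup.of true * De' m = De m * FreeGroup.of (star m true) := by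
  have h := alt_last m (FreeGroup.of true) (FreeGroup.of false)
  have h1 : altProd (m + 1) (FreeGroup.of true) (FreeGroup.of false) =
    FreeGroup.of true * De' m := rfl
  rw [h1] at h
  rw [h]
  congr 1
  unfold star
  split_ifs <;> rfl

lemma de_false (m : ℕ) : FreeGroup.of false * De m = De' m * FreeGroup.of (star m false) := by
  have h := alt_last m (FreeGroup.of false) (FreeGroup.of true)
  have h1 : altProd (m + 1) (FreeGroup.of false) (FreeGroup.of true) =
    FreeGroup.of false * De m := rfl
  rw [h1] at h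
  rw [h]
  congr 1
  unfold star
  split_ifs <;> rfl

lemma pos_letter (m : ℕ) (x : Bool) : ∃ A, Ar m 1 1 A ∧
    De m * FreeGroup.of (star m x) = A * FreeGroup.of x * De m := by
  cases x with
  | true =>
    refine ⟨_, ar_single m 1 [(true, true)] (le_refl _) false, ?_⟩
    have h1 : (FreeGroup.mk [(true, true)] : FreeGroup Bool) = FreeGroup.of true := rfl
    rw [h1, ← de_true, rm_eq]
    simp only [Bool.false_eq_true, if_false]
    group
  | false =>
    refine ⟨_, ar_single m 1 [] (Nat.zero_le _) true, ?_⟩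
    have h1 : (FreeGroup.mk [] : FreeGroup Bool) = 1 := rfl
    rw [h1, if_pos rfl, rm_eq]
    have h2 := de_false m
    have h3 : 1 * (De m * (De' m)⁻¹) * 1⁻¹ * FreeGroup.of false * De m =
      De m * (De' m)⁻¹ * (FreeGroup.of false * De m) := by group
    rw [h3, h2]
    group

lemma letter_one (m : ℕ) (y b : Bool) : ∃ A, Ar m 1 2 A ∧
    De m * FreeGroup.mk [(y, b)] = A * FreeGroup.mk [(star m y, b)] * De m := by
  obtain ⟨A, hA, h1⟩ := pos_letter m (star m y)
  rw [star_star] at h1
  cases b with
  | true => exact ⟨A, ar_mono hA (le_refl _) (by norm_num), h1⟩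
  | false =>
    have e1 : (FreeGroup.mk [(y, false)] : FreeGroup Bool) = (FreeGroup.of y)⁻¹ := rfl
    have e2 : (FreeGroup.mk [(star m y, false)] : FreeGroup Bool) =
      (FreeGroup.of (star m y))⁻¹ := rfl
    refine ⟨_, ar_conj [(star m y, false)] (ar_inv hA), ?_⟩
    rw [e1, e2, inv_inv]
    have h2 : De m = A * FreeGroup.of (star m y) * De m * (FreeGroup.of y)⁻¹ := by
      rw [← h1]
      group
    have h3 : (FreeGroup.of (star m y))⁻¹ * A⁻¹ * FreeGroup.of (star m y) *
        (FreeGroup.of (star m y))⁻¹ * De m =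
        (FreeGroup.of (star m y))⁻¹ * A⁻¹ * De m := by group
    rw [h3]
    conv_rhs => rw [h2]
    group

lemma de_word (m : ℕ) : ∃ u : List (Bool × Bool), u.length = m ∧ FreeGroup.mk u = (De m)⁻¹ := by
  have h : ∀ n : ℕ, ∀ τ : Bool, (altw true n τ).length = n ∧
      FreeGroup.mk (altw true n τ) = altProd n (FreeGroup.of τ) (FreeGroup.of !τ) := by
    intro n
    induction n with
    | zero => intro τ; exact ⟨rfl, rfl⟩
    | succ n ih =>
      intro τ
      constructor
      · rw [altw, List.length_cons, (ih _).1]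
      · have h1 : altProd (n + 1) (FreeGroup.of τ) (FreeGroup.of !τ) =
          FreeGroup.of τ * altProd n (FreeGroup.of !τ) (FreeGroup.of τ) := rfl
        have h2 := (ih (!τ)).2
        rw [Bool.not_not] at h2
        rw [altw, h1, ← h2]
        have h3 : (FreeGroup.of τ : FreeGroup Bool) = FreeGroup.mk [(τ, true)] := rfl
        rw [h3, FreeGroup.mul_mk]
        rfl
  refine ⟨FreeGroup.invRev (altw true m true), ?_, ?_⟩
  · rw [FreeGroup.invRev_length]
    exact (h m true).1
  · rw [← FreeGroup.inv_mk, (h m true).2]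
    rfl

lemma mk_altw_true (n : ℕ) : ∀ τ : Bool,
    FreeGroup.mk (altw true n τ) = altProd n (FreeGroup.of τ) (FreeGroup.of !τ) := by
  induction n with
  | zero => intro τ; rfl
  | succ n ih =>
    intro τ
    have h1 : altProd (n + 1) (FreeGroup.of τ) (FreeGroup.of !τ) =
      FreeGroup.of τ * altProd n (FreeGroup.of !τ) (FreeGroup.of τ) := rfl
    have h2 := ih (!τ)
    rw [Bool.not_not] at h2
    rw [altw, h1, ← h2]
    have h3 : (FreeGroup.of τ : FreeGroup Bool) = FreeGroup.mk [(τ, true)] := rfl
    rw [h3, FreeGroup.mul_mk]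
    rfl

lemma mk_altw_false (n : ℕ) : ∀ τ : Bool, ∃ ω : Bool, ω = (if Even n then !τ else τ) ∧
    FreeGroup.mk (altw false n τ) = (altProd n (FreeGroup.of ω) (FreeGroup.of !ω))⁻¹ := by
  induction n with
  | zero => intro τ; exact ⟨_, rfl, by simp [altw, altProd, FreeGroup.one_eq_mk]⟩
  | succ n ih =>
    intro τ
    obtain ⟨ω, h1, h2⟩ := ih (!τ)
    rw [Bool.not_not] at h1
    refine ⟨ω, ?_, ?_⟩
    · rw [h1]
      by_cases h : Even n
      · rw [if_pos h, if_neg (by rw [Nat.even_add_one]; simpa using h)]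
      · rw [if_neg h, if_pos (by rw [Nat.even_add_one]; exact h)]
    · rw [alt_last, mul_inv_rev, ← h2]
      have h3 : (if Even n then FreeGroup.of ω else FreeGroup.of !ω) = FreeGroup.of τ := by
        rw [h1]
        by_cases h : Even n
        · rw [if_pos h, if_pos h]
        · rw [if_neg h, if_neg h, Bool.not_not]
      rw [h3]
      have h4 : (FreeGroup.of τ : FreeGroup Bool)⁻¹ = FreeGroup.mk [(τ, false)] := rfl
      rw [h4, FreeGroup.mul_mk]
      rfl

/-- the sign -/
def e (σ : Bool) : ℤ := if σ then 1 else -1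

lemma letter (m : ℕ) (σ y b : Bool) : ∃ A, Ar m 1 (m + 2) A ∧
    De m ^ e σ * FreeGroup.mk [(y, b)] = A * FreeGroup.mk [(star m y, b)] * De m ^ e σ := by
  cases σ with
  | true =>
    obtain ⟨A, hA, h1⟩ := letter_one m y b
    refine ⟨A, ar_mono hA (le_refl _) (by omega), ?_⟩
    simp only [e, if_true, zpow_one]
    exact h1
  | false =>
    obtain ⟨A, hA, h1⟩ := letter_one m (star m y) b
    rw [star_star] at h1
    obtain ⟨u, hu1, hu2⟩ := de_word m
    have h2 := ar_conj u (ar_inv hA)
    rw [hu1, hu2] at h2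
    refine ⟨_, h2, ?_⟩
    simp only [e, Bool.false_eq_true, if_false, zpow_neg, zpow_one, inv_inv]
    have h3 : FreeGroup.mk [(y, b)] = A⁻¹ * De m * FreeGroup.mk [(star m y, b)] * (De m)⁻¹ := by
      have h4 : A⁻¹ * De m * FreeGroup.mk [(star m y, b)] * (De m)⁻¹ =
        A⁻¹ * (De m * FreeGroup.mk [(star m y, b)]) * (De m)⁻¹ := by group
      rw [h4, h1]
      group
    rw [h3]
    group

lemma past (m : ℕ) (σ : Bool) : ∀ v : List (Bool × Bool), ∃ A, Ar m v.length (m + 2 + v.length) A ∧
    De m ^ e σ * FreeGroup.mk v =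
      A * FreeGroup.mk (v.map fun x => (star m x.1, x.2)) * De m ^ e σ := by
  intro v
  induction v with
  | nil =>
    refine ⟨1, ar_one m _, ?_⟩
    have h1 : (FreeGroup.mk [] : FreeGroup Bool) = 1 := rfl
    simp [h1]
  | cons a v ih =>
    obtain ⟨y, b⟩ := a
    obtain ⟨A, hA, h1⟩ := ih
    obtain ⟨B, hB, h2⟩ := letter m σ y b
    have h3 : FreeGroup.mk ((y, b) :: v) = FreeGroup.mk [(y, b)] * FreeGroup.mk v := by
      rw [FreeGroup.mul_mk]
      rfl
    have h4 : FreeGroup.mk (((y, b) :: v).map fun x => (star m x.1, x.2)) =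
        FreeGroup.mk [(star m y, b)] * FreeGroup.mk (v.map fun x => (star m x.1, x.2)) := by
      rw [FreeGroup.mul_mk]
      rfl
    refine ⟨B * (FreeGroup.mk [(star m y, b)] * A * (FreeGroup.mk [(star m y, b)])⁻¹), ?_, ?_⟩
    · rw [List.length_cons, add_comm v.length 1]
      refine ar_mul (ar_mono hB (le_refl _) (by omega))
        (ar_mono (ar_conj [(star m y, b)] hA) (le_refl _) ?_)
      rw [List.length_singleton]
      omega
    · rw [h3, h4]
      calc De m ^ e σ * (FreeGroup.mk [(y, b)] * FreeGroup.mk v) =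
          (De m ^ e σ * FreeGroup.mk [(y, b)]) * FreeGroup.mk v := by group
        _ = B * FreeGroup.mk [(star m y, b)] * (De m ^ e σ * FreeGroup.mk v) := by
            rw [h2]
            group
        _ = _ := by
            rw [h1]
            group

lemma run_de (m : ℕ) (σ τ : Bool) : ∃ A, Ar m 1 m A ∧
    FreeGroup.mk (altw σ m τ) = A * De m ^ e σ := by
  cases σ with
  | true =>
    rw [mk_altw_true]
    simp only [e, if_true, zpow_one]
    cases τ with
    | true => exact ⟨1, ar_mono (ar_one m m) (Nat.zero_le _) (le_refl _), by rw [one_mul]; rfl⟩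
    | false =>
      refine ⟨_, ar_single m m [] (Nat.zero_le _) false, ?_⟩
      have h1 : (FreeGroup.mk [] : FreeGroup Bool) = 1 := rfl
      have h2 : altProd m (FreeGroup.of false) (FreeGroup.of !false) = De' m := rfl
      rw [h1, h2, rm_eq]
      simp only [Bool.false_eq_true, if_false]
      group
  | false =>
    obtain ⟨ω, _, h1⟩ := mk_altw_false m τ
    rw [h1]
    simp only [e, Bool.false_eq_true, if_false, zpow_neg, zpow_one]
    cases ω with
    | true => exact ⟨1, ar_mono (ar_one m m) (Nat.zero_le _) (le_refl _), by rw [one_mul]; rfl⟩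
    | false =>
      obtain ⟨u, hu1, hu2⟩ := de_word m
      refine ⟨_, ar_single m m u (le_of_eq hu1) true, ?_⟩
      have h2 : altProd m (FreeGroup.of false) (FreeGroup.of !false) = De' m := rfl
      rw [hu2, h2, rm_eq]
      simp only [if_true]
      group

/-! ### the exponent sum, the image in the quotient -/

lemma sum_zero (m : ℕ) (hm : 2 ≤ m) (j : ℤ) (h : De m ^ j ∈ Subgroup.normalClosure {rm m}) :
    j = 0 := by
  set f : FreeGroup Bool →* Multiplicative ℤ :=
    FreeGroup.lift fun _ => Multiplicative.ofAdd (1 : ℤ) with hf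
  have hof : ∀ x, f (FreeGroup.of x) = Multiplicative.ofAdd (1 : ℤ) := fun x => by
    rw [hf, FreeGroup.lift_apply_of]
  have halt : ∀ (n : ℕ) (x y : Bool), f (altProd n (FreeGroup.of x) (FreeGroup.of y)) =
      Multiplicative.ofAdd (n : ℤ) := by
    intro n
    induction n with
    | zero => intro x y; simp [altProd]
    | succ n ih =>
      intro x y
      have h1 : altProd (n + 1) (FreeGroup.of x) (FreeGroup.of y) =
        FreeGroup.of x * altProd n (FreeGroup.of y) (FreeGroup.of x) := rfl
      rw [h1, map_mul, hof, ih, ← ofAdd_add]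
      push_cast
      rw [add_comm]
  have hk : Subgroup.normalClosure {rm m} ≤ f.ker := by
    refine Subgroup.normalClosure_le_normal ?_
    intro x hx
    rw [Set.mem_singleton_iff] at hx
    subst hx
    show f (rm m) = 1
    unfold rm
    rw [map_mul, map_inv, halt, halt, mul_inv_cancel]
  have h1 : f (De m ^ j) = 1 := hk h
  rw [map_zpow] at h1
  unfold De at h1
  rw [halt, ← ofAdd_zsmul] at h1
  have h2 : j • (m : ℤ) = 0 := h1
  rw [smul_eq_mul, mul_eq_zero] at h2
  omega

lemma el_zpow {N : Bool → ℕ} (i : Bool) (k j : ℤ) : Dih.el N i k ^ j = Dih.el N i (j * k) := by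
  unfold Dih.el
  rw [← map_zpow, ← ofAdd_zsmul]
  push_cast
  rw [zsmul_eq_mul]

lemma find_run (m : ℕ) (hm : 2 ≤ m) (w : List (Bool × Bool)) (hw : FreeGroup.IsReduced w)
    (h0 : w ≠ []) (j : ℤ)
    (h : FreeGroup.mk w * De m ^ j ∈ Subgroup.normalClosure {rm m}) :
    ∃ (u v : List (Bool × Bool)) (σ τ : Bool), w = u ++ altw σ m τ ++ v := by
  by_contra hcon
  push Not at hcon
  set N : Bool → ℕ := fun b => cond b m 2 with hN
  have h2 : N false = 2 := rfl
  have h3 : N true = m := rfl
  have hker : Dih.phi N (FreeGroup.mk w * De m ^ j) = 1 :=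
    Dih.phi_ker (N := N) h2 _ (by rw [h3]; exact h)
  have hde : Dih.phi N (De m) = Dih.el N false m := by
    have h4 := (Dih.alt_img (N := N) h2 m).1
    have h5 : Dih.el N true m = 1 := Dih.el_dvd N true m (dvd_refl _)
    rw [h5, one_mul] at h4
    exact h4
  rw [map_mul, map_zpow, hde, el_zpow, mul_eq_one_iff_eq_inv, Dih.el_neg] at hker
  have hln : Dih.ln (Dih.phi N (FreeGroup.mk w)) = 0 := by
    rw [hker]
    have := Dih.ln_el (N := N) false (-(j * m))
    simpa using this
  match w, hw, h0, hcon, hln with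
  | (x, b) :: w, hw, _, hcon, hln =>
    obtain ⟨p, r, w', hp1, hp2, _, _, hst⟩ := Dih.runs (N := N) h2 hm w x b hw hcon
    rw [Dih.stL_ln h2 (Dih.not_dvd (Dih.sg_cases b) hp1 hp2) hst] at hln
    omega

lemma altw_length (σ : Bool) (n : ℕ) : ∀ τ, (altw σ n τ).length = n := by
  induction n with
  | zero => intro τ; rfl
  | succ n ih => intro τ; rw [altw, List.length_cons, ih]

lemma main (m n : ℕ) (hm : 2 ≤ m) : ∀ k, k ≤ n → ∀ (w : List (Bool × Bool)) (j : ℤ),
    w.length ≤ k → FreeGroup.mk w * De m ^ j ∈ Subgroup.normalClosure {rm m} →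
    Ar m (k * (k + 1)) (n + m + 2) (FreeGroup.mk w * De m ^ j) := by
  have base : ∀ (w : List (Bool × Bool)) (j : ℤ), FreeGroup.mk w = 1 →
      FreeGroup.mk w * De m ^ j ∈ Subgroup.normalClosure {rm m} →
      Ar m 0 (n + m + 2) (FreeGroup.mk w * De m ^ j) := by
    intro w j h1 h2
    rw [h1, one_mul] at h2 ⊢
    rw [sum_zero m hm j h2, zpow_zero]
    exact ar_one _ _
  intro k
  induction k with
  | zero =>
    intro _ w j hw h
    have h1 : w = [] := List.length_eq_zero_iff.1 (Nat.le_zero.1 hw)
    subst h1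
    exact ar_mono (base [] j rfl h) (Nat.zero_le _) (le_refl _)
  | succ k ih =>
    intro hk w j hw h
    set w0 := FreeGroup.reduce w with hw0
    have hmk : FreeGroup.mk w0 = FreeGroup.mk w := FreeGroup.reduce.self
    have hlen : w0.length ≤ w.length := by
      have h1 : FreeGroup.Red w w0 := FreeGroup.reduce.red
      exact h1.length_le
    have hred : FreeGroup.IsReduced w0 := by
      rw [FreeGroup.isReduced_iff_reduce_eq, hw0, FreeGroup.reduce.idem]
    by_cases h0 : w0 = []
    · have h1 : FreeGroup.mk w = 1 := by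
        rw [← hmk, h0]
        rfl
      exact ar_mono (base w j h1 h) (Nat.zero_le _) (le_refl _)
    rw [← hmk] at h ⊢
    obtain ⟨u, v, σ, τ, huv⟩ := find_run m hm w0 hred h0 j h
    have hl : w0.length = u.length + m + v.length := by
      rw [huv, List.length_append, List.length_append, altw_length]
    obtain ⟨A, hA, h1⟩ := run_de m σ τ
    obtain ⟨B, hB, h2⟩ := past m σ v
    set v' := v.map fun x => (star m x.1, x.2) with hv'
    have hv'l : v'.length = v.length := by rw [hv', List.length_map]
    have heq : FreeGroup.mk w0 * De m ^ j = (FreeGroup.mk u * (A * B) * (FreeGroup.mk u)⁻¹) *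
        (FreeGroup.mk (u ++ v') * De m ^ (e σ + j)) := by
      rw [huv, ← FreeGroup.mul_mk, ← FreeGroup.mul_mk, ← FreeGroup.mul_mk, h1, zpow_add]
      calc FreeGroup.mk u * (A * De m ^ e σ) * FreeGroup.mk v * De m ^ j =
          FreeGroup.mk u * A * (De m ^ e σ * FreeGroup.mk v) * De m ^ j := by group
        _ = _ := by
          rw [h2]
          group
    have hAB : Ar m (1 + v.length) (u.length + (m + 2 + v.length))
        (FreeGroup.mk u * (A * B) * (FreeGroup.mk u)⁻¹) :=
      ar_conj u (ar_mul (ar_mono hA (le_refl _) (by omega)) hB)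
    have hmem : FreeGroup.mk (u ++ v') * De m ^ (e σ + j) ∈ Subgroup.normalClosure {rm m} := by
      rw [heq] at h
      exact (Subgroup.mul_mem_cancel_left _ (ar_mem hAB)).1 h
    have h5 := ih (by omega) (u ++ v') (e σ + j) (by
      rw [List.length_append, hv'l]
      omega) hmem
    rw [heq]
    refine ar_mono (ar_mul (ar_mono hAB (le_refl _) (by omega)) h5) ?_ (le_refl _)
    nlinarith

end Dar

/-- **DAR** -/
theorem DAR : S_DAR := by
  intro m n hm w hw h
  have h1 := Dar.main m n hm n (le_refl _) w 0 hw (by rw [zpow_zero, mul_one]; exact h)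
  rw [zpow_zero, mul_one] at h1
  obtain ⟨c, h2, h3, h4⟩ := h1
  have h5 : n * (n + 1) ≤ bd m n := by
    unfold bd
    have : n * (n + 1) ≤ 1 * (n + 2) ^ 3 := by
      have h6 : (n + 2) ^ 3 = (n + 2) * (n + 2) * (n + 2) := by ring
      rw [h6, one_mul]
      nlinarith [Nat.zero_le n, Nat.zero_le (n * n), Nat.zero_le (n * n * n)]
    exact this.trans (Nat.mul_le_mul_right _ (by omega))
  have h6 : n + m + 2 ≤ bd m n := by
    unfold bd
    have h7 : (n + 2) ^ 3 ≥ n + 2 := Nat.le_self_pow (by norm_num) _
    have h8 : (m + 2) * (n + 2) ≤ (m + 2) * (n + 2) ^ 3 := Nat.mul_le_mul_left _ h7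
    have h9 : n + m + 2 ≤ (m + 2) * (n + 2) := by nlinarith [Nat.zero_le (m * n)]
    omega
  exact ⟨c, h2.trans h5, fun p hp => (h3 p hp).trans h6, h4⟩

end Pool.Agent.L0h72.AL
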