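import Pool.Agent.L0h29.AL.Defs2

set_option autoImplicit false

/-!
# Project AL2, RUN and DLN
-/

namespace Pool.Agent.L0h72.AL

open Pool.Agent.L0h29.AL Pool.Agent.K7.H20.AW

namespace Run

/-- the letters of a word in syllables -/
def ltr (l : List (Bool × ℤ)) : List (Bool × Bool) :=
  l.flatMap fun a => List.replicate a.2.natAbs (a.1, decide (0 < a.2))

lemma ltr_nil : ltr [] = [] := rfl

lemma ltr_cons (x : Bool) (k : ℤ) (l : List (Bool × ℤ)) :
    ltr ((x, k) :: l) = List.replicate k.natAbs (x, decide (0 < k)) ++ ltr l := rfl

lemma length_ltr (l : List (Bool × ℤ)) : (ltr l).length = lt l := by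
  induction l with
  | nil => rfl
  | cons a l ih =>
    obtain ⟨x, k⟩ := a
    rw [ltr_cons, List.length_append, ih, List.length_replicate]
    rfl

lemma mk_rep (x : Bool) (k : ℤ) :
    FreeGroup.mk (List.replicate k.natAbs (x, decide (0 < k))) = FreeGroup.of x ^ k := by
  have h : ∀ (b : Bool) (n : ℕ), FreeGroup.mk (List.replicate n (x, b)) =
      (FreeGroup.mk [(x, b)]) ^ n := by
    intro b n
    induction n with
    | zero => rfl
    | succ n ih =>
      rw [List.replicate_succ, pow_succ', ← ih, FreeGroup.mul_mk]
      rfl
  rw [h]
  rcases lt_or_ge 0 k with h1 | h1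
  · rw [decide_eq_true h1]
    have e2 : k = (k.natAbs : ℤ) := by omega
    conv_rhs => rw [e2]
    rw [zpow_natCast]
    rfl
  · rw [decide_eq_false (by omega)]
    have e2 : k = -(k.natAbs : ℤ) := by omega
    conv_rhs => rw [e2]
    rw [zpow_neg, zpow_natCast, ← inv_pow]
    rfl

lemma mk_ltr (l : List (Bool × ℤ)) : FreeGroup.mk (ltr l) = ev FreeGroup.of l := by
  induction l with
  | nil => rfl
  | cons a l ih =>
    obtain ⟨x, k⟩ := a
    rw [ltr_cons, ← FreeGroup.mul_mk, ih, mk_rep]
    simp [ev]

lemma red_rep (x b : Bool) (w : List (Bool × Bool)) (hw : FreeGroup.IsReduced w)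
    (h : ∀ a ∈ w.head?, x ≠ a.1) : ∀ n : ℕ, FreeGroup.IsReduced (List.replicate n (x, b) ++ w) := by
  intro n
  induction n with
  | zero => simpa using hw
  | succ n ih =>
    rw [List.replicate_succ, List.cons_append]
    cases n with
    | zero =>
      rw [List.replicate_zero, List.nil_append]
      cases w with
      | nil => exact FreeGroup.IsReduced.singleton
      | cons a w =>
        rw [FreeGroup.isReduced_cons_cons]
        exact ⟨fun h' => absurd h' (h a rfl), hw⟩
    | succ n =>
      rw [List.replicate_succ, List.cons_append] at ih ⊢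
      rw [FreeGroup.isReduced_cons_cons]
      exact ⟨fun _ => rfl, ih⟩

lemma syl_tail {a : Bool × ℤ} {l : List (Bool × ℤ)} (h : Syl (a :: l)) : Syl l := by
  refine ⟨?_, fun b hb => h.2 b (List.mem_cons_of_mem _ hb)⟩
  cases l with
  | nil => exact List.isChain_nil
  | cons c l =>
    have := h.1
    rw [List.isChain_cons_cons] at this
    exact this.2

lemma head_ltr {x : Bool} {k : ℤ} (hk : k ≠ 0) (l : List (Bool × ℤ)) :
    (ltr ((x, k) :: l)).head? = some (x, decide (0 < k)) := by
  rw [ltr_cons]
  have h : k.natAbs = (k.natAbs - 1) + 1 := by omega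
  rw [h, List.replicate_succ]
  rfl

lemma red_ltr (l : List (Bool × ℤ)) (h : Syl l) : FreeGroup.IsReduced (ltr l) := by
  induction l with
  | nil => exact FreeGroup.IsReduced.nil
  | cons a l ih =>
    obtain ⟨x, k⟩ := a
    rw [ltr_cons]
    refine red_rep x _ _ (ih (syl_tail h)) ?_ _
    cases l with
    | nil => intro a ha; simp [ltr_nil] at ha
    | cons c l =>
      obtain ⟨y, k2⟩ := c
      have hk2 : k2 ≠ 0 := h.2 (y, k2) (by simp)
      rw [head_ltr hk2]
      intro a ha
      have h1 := h.1
      rw [List.isChain_cons_cons] at h1
      simp only [Option.mem_def, Option.some.injEq] at ha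
      rw [← ha]
      exact h1.1

/-- the initial run -/
lemma init_run (l : List (Bool × ℤ)) (h : Syl l) : ∀ (p : ℕ) (σ τ : Bool) (v : List (Bool × Bool)),
    ltr l = altw σ p τ ++ v →
    p ≤ up l + 2 ∧ ∀ x k l', l = (x, k) :: l' → k.natAbs ≠ 1 → p ≤ 1 := by
  induction l with
  | nil =>
    intro p σ τ v hp
    cases p with
    | zero => exact ⟨by omega, by omega⟩
    | succ p => simp [ltr_nil, altw] at hp
  | cons a l ih =>
    obtain ⟨x, k⟩ := a
    intro p σ τ v hp
    have hk : k ≠ 0 := h.2 (x, k) (by simp)
    rw [ltr_cons] at hp
    cases p with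
    | zero => exact ⟨by omega, by omega⟩
    | succ p =>
      by_cases hk1 : k.natAbs = 1
      · rw [hk1, List.replicate_one] at hp
        simp only [altw, List.cons_append, List.nil_append, List.cons.injEq, Prod.mk.injEq] at hp
        obtain ⟨⟨h1, h2⟩, h3⟩ := hp
        have h4 := ih (syl_tail h) p σ (!τ) v h3
        refine ⟨?_, ?_⟩
        · cases l with
          | nil =>
            rw [ltr_nil] at h3
            cases p with
            | zero => omega
            | succ p => simp [altw] at h3
          | cons c l =>
            obtain ⟨y, k2⟩ := c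
            have hup : up ((x, k) :: (y, k2) :: l) =
                (if |k| = 1 ∧ |k2| = 1 then 1 else 0) + up ((y, k2) :: l) := rfl
            by_cases hk2 : k2.natAbs = 1
            · rw [hup, if_pos ⟨by rw [Int.abs_eq_natAbs, hk1]; rfl,
                by rw [Int.abs_eq_natAbs, hk2]; rfl⟩]
              have := h4.1
              omega
            · have := h4.2 y k2 l rfl hk2
              omega
        · intro x' k' l' hl hk'
          simp only [List.cons.injEq, Prod.mk.injEq] at hl
          rw [← hl.1.2] at hk'
          exact absurd hk1 hk'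
      · have h5 : k.natAbs = (k.natAbs - 2) + 1 + 1 := by omega
        rw [h5, List.replicate_succ, List.replicate_succ] at hp
        have h6 : p = 0 := by
          cases p with
          | zero => rfl
          | succ p =>
            exfalso
            simp only [altw, List.cons_append, List.cons.injEq, Prod.mk.injEq] at hp
            obtain ⟨⟨h1, _⟩, ⟨h2, _⟩, _⟩ := hp
            rw [h1] at h2
            cases τ <;> simp at h2
        subst h6
        exact ⟨by omega, fun _ _ _ _ _ => le_refl _⟩

lemma any_run (l : List (Bool × ℤ)) (h : Syl l) :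
    ∀ (p : ℕ) (u v : List (Bool × Bool)) (σ τ : Bool),
    ltr l = u ++ altw σ p τ ++ v → p ≤ up l + 3 := by
  induction l with
  | nil =>
    intro p u v σ τ hp
    cases p with
    | zero => omega
    | succ p => simp [ltr_nil, altw] at hp
  | cons a l ih =>
    obtain ⟨x, k⟩ := a
    intro p
    have hup1 : up l ≤ up ((x, k) :: l) := by
      cases l with
      | nil => exact Nat.zero_le _
      | cons c l =>
        obtain ⟨y, k2⟩ := c
        have hup : up ((x, k) :: (y, k2) :: l) =
            (if |k| = 1 ∧ |k2| = 1 then 1 else 0) + up ((y, k2) :: l) := rfl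
        rw [hup]
        omega
    have key : ∀ (n : ℕ) (u v : List (Bool × Bool)) (σ τ : Bool),
        List.replicate n (x, decide (0 < k)) ++ ltr l = u ++ altw σ p τ ++ v →
        p ≤ up ((x, k) :: l) + 3 := by
      intro n
      induction n with
      | zero =>
        intro u v σ τ hp
        rw [List.replicate_zero, List.nil_append] at hp
        have := ih (syl_tail h) p u v σ τ hp
        omega
      | succ n ihn =>
        intro u v σ τ hp
        rw [List.replicate_succ, List.cons_append] at hp
        cases u with
        | cons b u =>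
          rw [List.cons_append, List.cons_append, List.cons.injEq] at hp
          exact ihn u v σ τ hp.2
        | nil =>
          rw [List.nil_append] at hp
          cases p with
          | zero => omega
          | succ p =>
            simp only [altw, List.cons_append, List.cons.injEq, Prod.mk.injEq] at hp
            obtain ⟨⟨h1, h2⟩, h3⟩ := hp
            cases n with
            | zero =>
              rw [List.replicate_zero, List.nil_append] at h3
              have := (init_run l (syl_tail h) p σ (!τ) v h3).1
              omega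
            | succ n =>
              cases p with
              | zero => omega
              | succ p =>
                exfalso
                rw [List.replicate_succ] at h3
                simp only [altw, List.cons_append, List.cons.injEq, Prod.mk.injEq] at h3
                obtain ⟨⟨h4, _⟩, _⟩ := h3
                rw [h1] at h4
                cases τ <;> simp at h4
    intro u v σ τ hp
    rw [ltr_cons] at hp
    exact key _ u v σ τ hp

end Run

/-- **RUN** -/
theorem RUN : S_RUN := by
  intro l hl
  exact ⟨Run.ltr l, Run.red_ltr l hl, Run.mk_ltr l, Run.length_ltr l,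
    fun m u v σ τ _ h => Run.any_run l hl m u v σ τ h⟩

/-- **DLN** -/
theorem DLN (h1 : S_IMG) (h2 : S_RUN) : S_DLN := by
  intro m hm l l' hl hl' hup hN
  obtain ⟨Q, _, ψ, lam, hrm, hl1, hmul, hlet, himg⟩ := h1 m hm
  obtain ⟨w, _, hw2, hw3, _⟩ := h2 l hl
  obtain ⟨w', hr', hw2', hw3', hrun'⟩ := h2 l' hl'
  have hk : ψ (ev FreeGroup.of l) = ψ (ev FreeGroup.of l') := by
    have h3 : Subgroup.normalClosure {rm m} ≤ ψ.ker := by
      refine Subgroup.normalClosure_le_normal ?_
      intro x hx
      rw [Set.mem_singleton_iff] at hx
      subst hx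
      exact hrm
    have h4 : ψ ((ev FreeGroup.of l)⁻¹ * ev FreeGroup.of l') = 1 := h3 hN
    rw [map_mul, map_inv, inv_mul_eq_one] at h4
    exact h4
  have h5 : ∀ v : List (Bool × Bool), lam (ψ (FreeGroup.mk v)) ≤ v.length := by
    intro v
    induction v with
    | nil =>
      have h6 : ψ (FreeGroup.mk ([] : List (Bool × Bool))) = 1 := by
        rw [← FreeGroup.one_eq_mk, map_one]
      rw [h6, hl1]
      exact Nat.zero_le _
    | cons a v ih =>
      obtain ⟨x, b⟩ := a
      have h6 : FreeGroup.mk ((x, b) :: v) = FreeGroup.mk [(x, b)] * FreeGroup.mk v := by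
        rw [FreeGroup.mul_mk]
        rfl
      rw [h6, map_mul, List.length_cons]
      have h7 : lam (ψ (FreeGroup.mk [(x, b)])) ≤ 1 := by
        cases b with
        | true => exact (hlet x).1
        | false => exact (hlet x).2
      have := hmul (ψ (FreeGroup.mk [(x, b)])) (ψ (FreeGroup.mk v))
      omega
  have h6 := himg w' hr' (fun u v σ τ h => by
    have := hrun' m u v σ τ hm h
    omega)
  rw [hw2', ← hk, ← hw2, hw3'] at h6
  have h7 := h5 w
  rw [hw3] at h7
  exact h6.trans (Nat.mul_le_mul_left _ h7)

end Pool.Agent.L0h72.AL
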