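import Pool.Agent.L0h29.AL.ArtDefs5

/-!
# Project AL, module CHN: equal positive words are joined by boundedly many braid moves (helper72)
-/

set_option autoImplicit false

namespace Pool.Agent.L0h72.AL.CHN

open Pool.Agent.L0h29.AL

variable {B : Type*} {M : CoxeterMatrix B}

theorem length_awp : ∀ (m : ℕ) (i j : B), (awp m i j).length = m
  | 0, _, _ => rfl
  | m + 1, i, j => by
    show (i :: awp m j i).length = _
    rw [List.length_cons, length_awp m j i]

theorem Mv.symm {l l' : List B} (h : Mv M l l') : Mv M l' l := by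
  obtain ⟨a, b, i, j, rfl, rfl⟩ := h
  refine ⟨a, b, j, i, ?_, ?_⟩
  · rw [M.symmetric j i]
  · rw [M.symmetric j i]

theorem Mv.length {l l' : List B} (h : Mv M l l') : l'.length = l.length := by
  obtain ⟨a, b, i, j, rfl, rfl⟩ := h
  simp only [List.length_append, length_awp]

theorem Mv.ctx {l l' : List B} (h : Mv M l l') (c d : List B) : Mv M (c ++ l ++ d) (c ++ l' ++ d) := by
  obtain ⟨a, b, i, j, rfl, rfl⟩ := h
  refine ⟨c ++ a, b ++ d, i, j, ?_, ?_⟩ <;> simp only [List.append_assoc]

theorem rt_symm {l l' : List B} (h : Relation.ReflTransGen (Mv M) l l') :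
    Relation.ReflTransGen (Mv M) l' l := by
  induction h with
  | refl => exact Relation.ReflTransGen.refl
  | tail _ h2 ih => exact Relation.ReflTransGen.head (Mv.symm h2) ih

theorem rt_ctx {l l' : List B} (h : Relation.ReflTransGen (Mv M) l l') (c d : List B) :
    Relation.ReflTransGen (Mv M) (c ++ l ++ d) (c ++ l' ++ d) := by
  induction h with
  | refl => exact Relation.ReflTransGen.refl
  | tail _ h2 ih => exact Relation.ReflTransGen.tail ih (Mv.ctx h2 c d)

/-- the congruence -/
def cc (M : CoxeterMatrix B) : Con (FreeMonoid B) where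
  r x y := Relation.ReflTransGen (Mv M) (FreeMonoid.toList x) (FreeMonoid.toList y)
  iseqv := ⟨fun _ => Relation.ReflTransGen.refl, fun h => rt_symm h, fun h h' => h.trans h'⟩
  mul' := by
    intro w x y z h h'
    have h1 := rt_ctx h [] (FreeMonoid.toList y)
    have h2 := rt_ctx h' (FreeMonoid.toList x) []
    simp only [List.nil_append, List.append_nil] at h1 h2
    have h3 := h1.trans h2
    simpa only [FreeMonoid.toList_mul] using h3

theorem rt_of_eq {l l' : List B} (h : pm M l = pm M l') : Relation.ReflTransGen (Mv M) l l' := by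
  have h1 : conGen (APr M) (FreeMonoid.ofList l) (FreeMonoid.ofList l') :=
    PresentedMonoid.mk_eq_mk_iff.1 h
  have h2 : conGen (APr M) ≤ cc M := by
    rw [Con.conGen_le]
    rintro x y ⟨i, j, rfl, rfl⟩
    refine Relation.ReflTransGen.single ⟨[], [], i, j, ?_, ?_⟩
    · simp
    · simp
  exact h2 h1

/-- the graph of the words of length `N` -/
def gph (M : CoxeterMatrix B) (N : ℕ) : SimpleGraph {x : List B // x.length = N} where
  Adj x y := x ≠ y ∧ Mv M x.1 y.1
  symm := ⟨fun _ _ h => ⟨h.1.symm, Mv.symm h.2⟩⟩
  loopless := ⟨fun _ h => h.1 rfl⟩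

theorem reach {l l' : List B} (h : Relation.ReflTransGen (Mv M) l l') :
    ∃ h' : l'.length = l.length, (gph M l.length).Reachable ⟨l, rfl⟩ ⟨l', h'⟩ := by
  induction h with
  | refl => exact ⟨rfl, SimpleGraph.Reachable.refl _⟩
  | @tail b c _ h2 ih =>
    obtain ⟨h', hr⟩ := ih
    have hl := Mv.length h2
    refine ⟨hl.trans h', hr.trans ?_⟩
    by_cases hbc : b = c
    · subst hbc
      exact SimpleGraph.Reachable.refl _
    · apply SimpleGraph.Adj.reachable
      refine ⟨fun h => hbc (congrArg Subtype.val h), h2⟩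

theorem t_CHN.{u} : S_CHN.{u} := by
  intro B _ _ M l l' h
  obtain ⟨hl, hr⟩ := reach (rt_of_eq h)
  obtain ⟨w⟩ := hr
  let p := w.toPath
  letI : Fintype {x : List B // x.length = l.length} :=
    inferInstanceAs (Fintype (List.Vector B l.length))
  have hp : p.1.length < Fintype.card {x : List B // x.length = l.length} := p.2.length_lt
  have hc : Fintype.card {x : List B // x.length = l.length} = Fintype.card B ^ l.length :=
    card_vector l.length
  rw [hc] at hp
  refine ⟨p.1.support.map Subtype.val, ?_, ?_, ?_, ?_, ?_⟩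
  · have h1 : (⟨l, rfl⟩ : {x : List B // x.length = l.length}) :: p.1.support.tail =
      p.1.support := p.1.cons_tail_support
    rw [← h1]
    rfl
  · rw [List.getLast?_map, List.getLast?_eq_getLast_of_ne_nil p.1.support_ne_nil,
      SimpleGraph.Walk.getLast_support]
    rfl
  · rw [List.length_map, SimpleGraph.Walk.length_support]
    omega
  · rw [List.isChain_map]
    exact p.1.isChain_adj_support.imp fun a b h => h.2
  · intro x hx
    obtain ⟨y, -, rfl⟩ := List.mem_map.1 hx
    exact y.2

end Pool.Agent.L0h72.AL.CHN
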