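import Pool.Agent.L0h72.AL.REL

/-!
# Project AL, module NUR: the non-uniform version (helper72)
-/

set_option autoImplicit false

namespace Pool.Agent.L0h72.AL.NUR

open Pool.Agent.K7.H20.AW Pool.Agent.L0h29.AL Pool.Agent.L0h68.AL Pool.Agent.L0h47.AL
  Pool.Agent.L0h72.AL.REL

section

variable {n : ℕ}

theorem nval_up (M : CoxeterMatrix (Fin n)) (w : List (Fin n × Bool)) :
    nval M (w.map L0h68.AL.up) = fval M w := by
  unfold nval fval
  rw [List.map_map]
  congr 1
  apply List.map_congr_left
  intro p _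
  show (if h : p.1.val < n then (if p.2 then (PresentedGroup.of ⟨p.1.val, h⟩ : ArtinGroup M) else
      (PresentedGroup.of ⟨p.1.val, h⟩ : ArtinGroup M)⁻¹) else 1) = _
  rw [dif_pos p.1.2]

theorem fval_iff (M : CoxeterMatrix (Fin n)) (w : List (Fin n × Bool)) :
    fval M w = 1 ↔ wv (g M) w = 1 := by
  rw [← nval_up, nval_iff, ← wv_fl, fl_up]

/-- the code of a matrix -/
def code (M : CoxeterMatrix (Fin n)) : List (List ℕ) :=
  (List.range n).map fun i => (List.range n).map fun j =>
    if h : i < n ∧ j < n then M ⟨i, h.1⟩ ⟨j, h.2⟩ else 0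

theorem mat_code (M : CoxeterMatrix (Fin n)) : mat n (code M) = M := by
  ext i j
  show mat n (code M) i j = M i j
  rw [mat_apply]
  by_cases hij : i = j
  · rw [if_pos hij, hij]
    exact (M.diagonal j).symm
  rw [if_neg hij]
  have h1 : min i.val j.val < n := lt_of_le_of_lt (min_le_left _ _) i.2
  have h2 : max i.val j.val < n := max_lt i.2 j.2
  have h3 : lb (code M) i j = M ⟨min i.val j.val, h1⟩ ⟨max i.val j.val, h2⟩ := by
    rw [lb, code, getD_range _ _ h1, getD_range _ _ h2, dif_pos ⟨h1, h2⟩]
  have h4 : M ⟨min i.val j.val, h1⟩ ⟨max i.val j.val, h2⟩ = M i j := by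
    rcases le_total i.val j.val with h | h
    · have e1 : (⟨min i.val j.val, h1⟩ : Fin n) = i := Fin.ext (min_eq_left h)
      have e2 : (⟨max i.val j.val, h2⟩ : Fin n) = j := Fin.ext (max_eq_right h)
      rw [e1, e2]
    · have e1 : (⟨min i.val j.val, h1⟩ : Fin n) = j := Fin.ext (min_eq_right h)
      have e2 : (⟨max i.val j.val, h2⟩ : Fin n) = i := Fin.ext (max_eq_left h)
      rw [e1, e2]
      exact M.symmetric j i
  rw [h3, h4, if_neg]
  exact M.off_diagonal i j hij

/-- the characteristic list of a set -/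
def key1 (Y : Finset (Fin n)) : List Bool :=
  (List.range n).map fun i => if h : i < n then decide ((⟨i, h⟩ : Fin n) ∈ Y) else false

/-- the characteristic list of a list -/
def key2 (n : ℕ) (X : List ℕ) : List Bool := (List.range n).map fun i => decide (i ∈ X)

theorem key_iff (X : List ℕ) (Y : Finset (Fin n)) :
    key2 n X = key1 Y ↔ ∀ i : Fin n, i ∈ Y ↔ i.val ∈ X := by
  constructor
  · intro h i
    have h1 := congrArg (fun l => l.getD i.val false) h
    simp only [key1, key2] at h1
    rw [getD_range _ _ i.2, getD_range _ _ i.2, dif_pos i.2, decide_eq_decide] at h1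
    exact h1.symm
  · intro h
    apply List.map_congr_left
    intro i hi
    rw [dif_pos (List.mem_range.1 hi), decide_eq_decide]
    exact (h ⟨i, List.mem_range.1 hi⟩).symm

theorem key2_pr : Primrec fun X : List ℕ => key2 n X := by
  have h1 : Primrec₂ fun (X : List ℕ) (i : ℕ) => decide (i ∈ X) :=
    (mem_pred (X := fun y : List ℕ × ℕ => y.1) (i := fun y => y.2) Primrec.fst Primrec.snd).decide
  exact Primrec.list_map (Primrec.const (List.range n)) h1

theorem fl_eq (hn : 0 < n) (w : List (ℕ × Bool)) : fl n w = w.flatMap fun a =>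
    if a.1 < n then [((⟨a.1 % n, Nat.mod_lt _ hn⟩ : Fin n), a.2)] else [] := by
  induction w with
  | nil => rfl
  | cons p w ih =>
    rw [fl, List.flatMap_cons, ← ih]
    by_cases h : p.1 < n
    · rw [dif_pos h, if_pos h]
      have e : (⟨p.1 % n, Nat.mod_lt _ hn⟩ : Fin n) = ⟨p.1, h⟩ := Fin.ext (Nat.mod_eq_of_lt h)
      rw [e]
      rfl
    · rw [dif_neg h, if_neg h]
      rfl

theorem fl_pr (hn : 0 < n) : Primrec fun w : List (ℕ × Bool) => fl n w := by
  have h0 : Primrec fun i : ℕ => (⟨i % n, Nat.mod_lt _ hn⟩ : Fin n) :=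
    Primrec.fin_val_iff.1 (Primrec.nat_mod.comp Primrec.id (Primrec.const n))
  have h1 : Primrec₂ fun (_ : List (ℕ × Bool)) (a : ℕ × Bool) =>
      if a.1 < n then [((⟨a.1 % n, Nat.mod_lt _ hn⟩ : Fin n), a.2)] else [] := by
    refine Primrec.ite (Primrec.nat_lt.comp (Primrec.fst.comp Primrec.snd) (Primrec.const n))
      ?_ (Primrec.const [])
    exact Primrec.list_cons.comp (Primrec.pair (h0.comp (Primrec.fst.comp Primrec.snd))
      (Primrec.snd.comp Primrec.snd)) (Primrec.const [])
  exact (Primrec.list_flatMap Primrec.id h1).of_eq fun w => (fl_eq hn w).symm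

/-- the oracle: a finite case distinction -/
def orl (D : Finset (Fin n) → List (Fin n × Bool) → Bool) (l : List (Finset (Fin n)))
    (z : List (ℕ × Bool) × List ℕ) : Bool :=
  l.any fun Y => decide (key2 n z.2 = key1 Y) && D Y (fl n z.1)

theorem orl_comp (hn : 0 < n) {D : Finset (Fin n) → List (Fin n × Bool) → Bool}
    (hD : ∀ Y, Computable (D Y)) : ∀ l : List (Finset (Fin n)), Computable (orl D l)
  | [] => (Computable.const false).of_eq fun z => rfl
  | Y :: l => by
    have h1 : Computable fun z : List (ℕ × Bool) × List ℕ => decide (key2 n z.2 = key1 Y) := by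
      have h : PrimrecPred fun z : List (ℕ × Bool) × List ℕ => key2 n z.2 = key1 Y :=
        Primrec.eq.comp (key2_pr.comp Primrec.snd) (Primrec.const (key1 Y))
      exact h.decide.to_comp
    have h2 : Computable fun z : List (ℕ × Bool) × List ℕ => D Y (fl n z.1) :=
      (hD Y).comp ((fl_pr hn).comp Primrec.fst).to_comp
    have h3 := orl_comp hn hD l
    have hor := Primrec₂.to_comp Primrec.or
    have hand := Primrec₂.to_comp Primrec.and
    have h4 := hor.comp (hand.comp h1 h2) h3
    exact h4.of_eq fun z => rfl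

end

theorem cpTrue {α : Type} [Primcodable α] (p : α → Prop) (h : ∀ a, p a) : ComputablePred p := by
  refine ComputablePred.computable_iff.2 ⟨fun _ => true, Computable.const true, ?_⟩
  funext a
  exact propext ⟨fun _ => rfl, fun _ => h a⟩

/-- NUR -/
theorem t_NUR (hB : S_BIG) (hG : S_GPA.{0}) (hC : S_CLX.{0}) : S_NUR := by
  classical
  intro n M hM
  rcases Nat.eq_zero_or_pos n with hn | hn
  · subst hn
    refine (Pool.Agent.L0h72.AL.NUR.cpTrue _ ?_)
    intro w
    cases w with
    | nil => rfl
    | cons p w => exact p.1.elim0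
  -- the decision procedures
  have hD : ∀ Y : Finset (Fin n), ∃ d : List (Fin n × Bool) → Bool, Computable d ∧
      ((∀ i ∈ Y, ∀ j ∈ Y, M i j ≠ 0 ∧ M i j < 100) →
        ∀ w, d w = true ↔ (∀ a ∈ w, a.1 ∈ Y) ∧ fval M w = 1) := by
    intro Y
    by_cases h : ∀ i ∈ Y, ∀ j ∈ Y, M i j ≠ 0 ∧ M i j < 100
    · obtain ⟨d, hd, hd'⟩ := ComputablePred.computable_iff.1 (hM Y h)
      refine ⟨d, hd, fun _ w => ?_⟩
      have h3 : ((∀ a ∈ w, a.1 ∈ Y) ∧ fval M w = 1) = (d w = true) := congrFun hd' w
      rw [h3]
    · exact ⟨fun _ => false, Computable.const false, fun h' => absurd h' h⟩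
  choose D hDc hDi using hD
  let l : List (Finset (Fin n)) := Finset.univ.toList
  have ho : Computable fun z : Qu => orl D l z.2 := (orl_comp hn hDc l).comp Computable.snd
  obtain ⟨f, hf, hf'⟩ := main hB hG hC (fun z => orl D l z.2) ho
  have hR : ∀ w, Right (fun z : Qu => orl D l z.2) (n, code M, w) := by
    intro w X r hX hr
    show orl D l (r, X) = true ↔ nval (mat n (code M)) r = 1
    have hX' : REL.Sm n (code M) X := hX
    unfold REL.Sm at hX'
    rw [mat_code] at hX'
    rw [mat_code]
    let Y : Finset (Fin n) := Finset.univ.filter fun i => i.val ∈ X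
    have hY : ∀ i : Fin n, i ∈ Y ↔ i.val ∈ X := by intro i; simp [Y]
    have hsm : ∀ i ∈ Y, ∀ j ∈ Y, M i j ≠ 0 ∧ M i j < 100 := fun i hi j hj =>
      hX' i j ((hY i).1 hi) ((hY j).1 hj)
    have h1 : orl D l (r, X) = true ↔ D Y (fl n r) = true := by
      rw [orl, List.any_eq_true]
      constructor
      · rintro ⟨Z, -, hZ⟩
        rw [Bool.and_eq_true, decide_eq_true_iff] at hZ
        have h2 := (key_iff X Z).1 hZ.1
        have h3 : Z = Y := by
          ext i
          rw [h2, hY]
        rw [← h3]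
        exact hZ.2
      · intro h
        refine ⟨Y, Finset.mem_toList.2 (Finset.mem_univ _), ?_⟩
        rw [Bool.and_eq_true, decide_eq_true_iff]
        exact ⟨(key_iff X Y).2 hY, h⟩
    rw [h1, hDi Y hsm, fval_iff, nval_iff, ← wv_fl]
    constructor
    · exact fun h => h.2
    · exact fun h => ⟨fun a ha => (hY a.1).2 (hr _ (fl_mem ha)), h⟩
  have hiff : ∀ w : List (Fin n × Bool), f (n, code M, w.map L0h68.AL.up) = true ↔
      fval M w = 1 := by
    intro w
    rw [hf' _ (hR _)]
    show nval (mat n (code M)) (w.map L0h68.AL.up) = 1 ↔ _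
    rw [mat_code, nval_up]
  refine ComputablePred.computable_iff.2 ⟨fun w => f (n, code M, w.map L0h68.AL.up), ?_, ?_⟩
  · have h1 : Primrec fun w : List (Fin n × Bool) => w.map L0h68.AL.up := by
      refine Primrec.list_map Primrec.id ?_
      exact (Primrec.pair (Primrec.fin_val.comp (Primrec.fst.comp Primrec.snd))
        (Primrec.snd.comp Primrec.snd)).to₂
    exact hf.comp (Primrec.pair (Primrec.const n) (Primrec.pair (Primrec.const (code M)) h1)).to_comp
  · funext w
    exact propext (hiff w).symm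

end Pool.Agent.L0h72.AL.NUR
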