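import Pool.Agent.L0h47.AL.GPG
import Pool.Agent.L0h29.AL.ArtDefs6

/-!
# Project AL, module REL: from the small parabolic subgroups to the whole group (helper72)
-/

set_option autoImplicit false

namespace Pool.Agent.L0h72.AL.REL

open Pool.Agent.K7.H20.AW Pool.Agent.L0h29.AL Pool.Agent.L0h68.AL Pool.Agent.L0h47.AL

/-- the questions to the oracle: the whole input, a word and a set of generators -/
abbrev Qu : Type := Inp × (List (ℕ × Bool) × List ℕ)

/-- the failure of one entry -/
def badP (orc : Qu → Bool) (z : Inp × Cert) : Bool :=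
  bdI (fun _ => true) ((z.1.1, trL z.1.2.1, z.1.2.2), z.2) || !orc (z.1, (z.2.2.1, z.2.2.2))

/-- `X` is small for the matrix `L` -/
def Sm (n : ℕ) (L : List (List ℕ)) (X : List ℕ) : Prop :=
  ∀ i j : Fin n, i.val ∈ X → j.val ∈ X → mat n L i j ≠ 0 ∧ mat n L i j < 100

theorem sm_iff {n : ℕ} {L : List (List ℕ)} {X : List ℕ} :
    (∀ i j : Fin n, i.val ∈ X → j.val ∈ X → mat n (trL L) i j ≠ 0) ↔ Sm n L X := by
  refine forall_congr' fun i => forall_congr' fun j => forall_congr' fun _ =>
    forall_congr' fun _ => ?_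
  rw [mat_tr]
  show (if i = j then 1 else if 100 ≤ mat n L i j then 0 else mat n L i j) ≠ 0 ↔ _
  by_cases hij : i = j
  · rw [if_pos hij, hij]
    have h1 : mat n L j j = 1 := (mat n L).diagonal j
    rw [h1]
    norm_num
  · rw [if_neg hij]
    by_cases h : 100 ≤ mat n L i j
    · rw [if_pos h]
      constructor
      · intro h1; exact absurd rfl h1
      · intro h1; omega
    · rw [if_neg h]
      constructor
      · intro h1; exact ⟨h1, by omega⟩
      · intro h1; exact h1.1

theorem badP_iff {orc : Qu → Bool} {x : Inp} {p : Cert} : badP orc (x, p) = false ↔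
    Sm x.1 x.2.1 p.2.2 ∧ (∀ a ∈ p.2.1, a.1 ∈ p.2.2) ∧ orc (x, (p.2.1, p.2.2)) = true := by
  rw [badP, Bool.or_eq_false_iff, bdI, bad_iff, sm_iff, Bool.not_eq_false']
  tauto

/-- the groups of the matrix and of the truncated matrix have the same relations over a small set -/
theorem clx_small (hC : S_CLX.{0}) {n : ℕ} (M : CoxeterMatrix (Fin n)) (Y : Finset (Fin n))
    (hY : ∀ i ∈ Y, ∀ j ∈ Y, M i j < 100) (v : List (Fin n × Bool)) (hv : ∀ a ∈ v, a.1 ∈ Y) :
    wv (g (tr M)) v = 1 ↔ wv (g M) v = 1 := by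
  have h1 := hC (Fin n) (tr M) Y v hv
  have h2 := hC (Fin n) M Y v hv
  have h3 : cl (tr M) Y = cl M Y := by
    ext i j
    show (if i = j then 1 else if i ∈ Y ∧ j ∈ Y then
      (if i = j then 1 else if 100 ≤ M i j then 0 else M i j) else 2) =
      (if i = j then 1 else if i ∈ Y ∧ j ∈ Y then M i j else 2)
    by_cases hij : i = j
    · rw [if_pos hij, if_pos hij]
    · rw [if_neg hij, if_neg hij, if_neg hij]
      by_cases h : i ∈ Y ∧ j ∈ Y
      · rw [if_pos h, if_pos h, if_neg (by have := hY i h.1 j h.2; omega)]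
      · rw [if_neg h, if_neg h]
  rw [h3] at h1
  exact h1.trans h2.symm

/-- the oracle is right for `(n, L, w)` -/
def Right (orc : Qu → Bool) (x : Inp) : Prop :=
  ∀ (X : List ℕ) (r : List (ℕ × Bool)), Sm x.1 x.2.1 X → (∀ a ∈ r, a.1 ∈ X) →
    (orc (x, (r, X)) = true ↔ nval (mat x.1 x.2.1) r = 1)

open Classical in
/-- the truth -/
noncomputable def tru (x : Inp) : Bool := decide (Triv x)

theorem bad_tru (hC : S_CLX.{0}) {orc : Qu → Bool} {x : Inp} (hr : Right orc x) (p : Cert) :
    bad tru x.1 (trL x.2.1) p = false ↔ badP orc (x, p) = false := by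
  classical
  rw [bad_iff, badP_iff, sm_iff]
  refine and_congr_right fun h1 => and_congr_right fun h2 => ?_
  rw [hr p.2.2 p.2.1 h1 h2, tru, decide_eq_true_iff]
  let Y : Finset (Fin x.1) := Finset.univ.filter fun i => i.val ∈ p.2.2
  have hY : ∀ i : Fin x.1, i ∈ Y ↔ i.val ∈ p.2.2 := by intro i; simp [Y]
  have hl : ∀ a ∈ fl x.1 p.2.1, a.1 ∈ Y := fun a ha => (hY a.1).2 (h2 _ (fl_mem ha))
  rw [triv_clL hC Y hY p.2.1 hl, nval_iff, ← wv_fl, mat_tr]
  exact clx_small hC _ Y (fun i hi j hj => (h1 i j ((hY i).1 hi) ((hY j).1 hj)).2) _ hl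

/-- the test of one certificate -/
def tstP (orc : Qu → Bool) (f1 : Inp → Bool) (z : (Inp × List (ℕ × Bool)) × List Cert) : Bool :=
  f1 (z.1.1.1, [], z.1.2 ++ inw (conc z.2)) && !(z.2.any fun p => badP orc (z.1.1, p))

theorem tstP_iff (hC : S_CLX.{0}) {orc : Qu → Bool} {f1 : Inp → Bool}
    (hf1 : ∀ n w, f1 (n, [], w) = true ↔ Triv (n, [], w)) {x : Inp} (hr : Right orc x)
    (w : List (ℕ × Bool)) (c : List Cert) :
    tstP orc f1 ((x, w), c) = true ↔ Good tru x.1 (trL x.2.1) w c := by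
  rw [tstP, Bool.and_eq_true, hf1, Bool.not_eq_true', List.any_eq_false, Good]
  refine and_congr Iff.rfl (forall₂_congr fun p _ => ?_)
  rw [bad_tru hC hr, Bool.not_eq_true]

theorem tru_ok (n : ℕ) (L : List (List ℕ)) : ∀ X : List ℕ,
    (∀ i j : Fin n, i.val ∈ X → j.val ∈ X → mat n L i j ≠ 0) →
      ∀ w, (tru (n, clL n L X, w) = true ↔ Triv (n, clL n L X, w)) := by
  classical
  intro X _ w
  rw [tru, decide_eq_true_iff]

/-! ### Computability -/

theorem comp_arg : Computable fun z : Inp × Cert =>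
    (((z.1.1, trL z.1.2.1, z.1.2.2), z.2) : Inp × Cert) :=
  (Primrec.pair (Primrec.pair (Primrec.fst.comp Primrec.fst)
    (Primrec.pair (prim_trL.comp (Primrec.fst.comp (Primrec.snd.comp Primrec.fst)))
      (Primrec.snd.comp (Primrec.snd.comp Primrec.fst)))) Primrec.snd).to_comp

theorem comp_badP {orc : Qu → Bool} (ho : Computable orc) : Computable (badP orc) := by
  have h0 : Computable (bdI (fun _ => true)) := comp_bdI cex (Computable.const true)
  have h2 := h0.comp comp_arg
  have h3 : Computable fun z : Inp × Cert => ((z.1, (z.2.2.1, z.2.2.2)) : Qu) :=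
    (Primrec.pair Primrec.fst (Primrec.pair (Primrec.fst.comp (Primrec.snd.comp Primrec.snd))
      (Primrec.snd.comp (Primrec.snd.comp Primrec.snd)))).to_comp
  have h4 := ho.comp h3
  have h5 := Primrec.not.to_comp.comp h4
  have hor := Primrec₂.to_comp Primrec.or
  have h6 := hor.comp h2 h5
  exact h6.of_eq fun z => rfl

theorem comp_allP {orc : Qu → Bool} (ho : Computable orc) :
    Computable fun z : (Inp × List (ℕ × Bool)) × List Cert =>
      z.2.any fun p => badP orc (z.1.1, p) := by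
  refine cex ((Inp × List (ℕ × Bool)) × List Cert) Cert (fun z => z.2)
    (fun z p => badP orc (z.1.1, p)) Computable.snd ?_
  have h3 : Computable fun y : ((Inp × List (ℕ × Bool)) × List Cert) × Cert =>
      ((y.1.1.1, y.2) : Inp × Cert) :=
    Computable.pair (Computable.fst.comp (Computable.fst.comp Computable.fst)) Computable.snd
  have h4 : Computable fun y : ((Inp × List (ℕ × Bool)) × List Cert) × Cert =>
      badP orc (y.1.1.1, y.2) := (comp_badP ho).comp h3
  exact h4

theorem comp_tstP {orc : Qu → Bool} (ho : Computable orc) {f1 : Inp → Bool}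
    (hf1 : Computable f1) : Computable (tstP orc f1) := by
  have h0 : Primrec fun z : (Inp × List (ℕ × Bool)) × List Cert =>
      (((z.1.1.1, [], z.1.2 ++ inw (conc z.2)) : Inp)) :=
    Primrec.pair (Primrec.fst.comp (Primrec.fst.comp Primrec.fst))
      (Primrec.pair (Primrec.const [])
      (Primrec.list_append.comp (Primrec.snd.comp Primrec.fst)
        (prim_inw (prim_conc.comp Primrec.snd))))
  have h1 : Computable fun z : (Inp × List (ℕ × Bool)) × List Cert =>
      f1 (z.1.1.1, [], z.1.2 ++ inw (conc z.2)) := hf1.comp h0.to_comp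
  have h3 := Primrec.not.to_comp.comp (comp_allP ho)
  have hand := Primrec₂.to_comp Primrec.and
  have h4 := hand.comp h1 h3
  exact h4.of_eq fun z => rfl

/-- the second search -/
def GG (orc : Qu → Bool) (f1 : Inp → Bool) (E2 : ℕ → List (List Cert))
    (z : Inp × List (ℕ × Bool)) : Bool :=
  (E2 (z.1.1 + ga z.1.1 z.2.length)).any fun c => tstP orc f1 (z, c)

theorem comp_GG {orc : Qu → Bool} (ho : Computable orc) {f1 : Inp → Bool}
    (hf1 : Computable f1) {E2 : ℕ → List (List Cert)} (hE2 : Primrec E2) :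
    Computable (GG orc f1 E2) := by
  refine cex (Inp × List (ℕ × Bool)) (List Cert)
      (fun z => E2 (z.1.1 + ga z.1.1 z.2.length)) (fun z c => tstP orc f1 (z, c)) ?_ ?_
  · exact (hE2.comp (Primrec.nat_add.comp (Primrec.fst.comp Primrec.fst)
        (prim_ga.comp (Primrec.fst.comp Primrec.fst)
          (Primrec.list_length.comp Primrec.snd)))).to_comp
  · have h1 : Computable fun z : (Inp × List (ℕ × Bool)) × List Cert =>
        tstP orc f1 (z.1, z.2) := (comp_tstP ho hf1).of_eq fun z => rfl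
    exact h1

/-- the certificates of the first search -/
abbrev Cer1 : Type := List (List (ℕ × Bool) × ℕ × ℕ × Bool)

/-- the argument -/
def ag (z : Inp × Cer1) : Inp × List (ℕ × Bool) :=
  (z.1, z.1.2.2 ++ exw (labN z.1.1 z.1.2.1) z.2)

theorem comp_ag : Computable ag := by
  have h1 : Primrec fun z : Inp × Cer1 =>
      ((z.1, z.1.2.2 ++ exw (labN z.1.1 z.1.2.1) z.2) : Inp × List (ℕ × Bool)) :=
    Primrec.pair Primrec.fst
        (Primrec.list_append.comp (Primrec.snd.comp (Primrec.snd.comp Primrec.fst))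
          (prim_exw (Primrec.fst.comp Primrec.fst)
            (Primrec.fst.comp (Primrec.snd.comp Primrec.fst)) Primrec.snd))
  exact h1.to_comp

/-- the algorithm -/
def FF (orc : Qu → Bool) (f1 : Inp → Bool) (E2 : ℕ → List (List Cert)) (E3 : ℕ → List Cer1)
    (x : Inp) : Bool :=
  (E3 (ps (nb x))).any fun c => GG orc f1 E2 (ag (x, c))

theorem comp_FF {orc : Qu → Bool} (ho : Computable orc) {f1 : Inp → Bool}
    (hf1 : Computable f1) {E2 : ℕ → List (List Cert)} (hE2 : Primrec E2)
    {E3 : ℕ → List Cer1} (hE3 : Primrec E3) : Computable (FF orc f1 E2 E3) := by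
  refine cex Inp Cer1 (fun x : Inp => E3 (ps (nb x)))
      (fun x c => GG orc f1 E2 (ag (x, c))) ?_ ?_
  · exact (hE3.comp (cps.comp prim_nb)).to_comp
  · have h1 : Computable fun z : Inp × Cer1 => GG orc f1 E2 (ag z) :=
      (comp_GG ho hf1 hE2).comp comp_ag
    have h2 : Computable fun z : Inp × Cer1 => GG orc f1 E2 (ag (z.1, z.2)) :=
      h1.of_eq fun z => rfl
    exact h2

/-- the general form with an oracle -/
theorem main (hB : S_BIG) (hG : S_GPA.{0}) (hC : S_CLX.{0}) (orc : Qu → Bool)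
    (ho : Computable orc) : ∃ f : Inp → Bool, Computable f ∧
      ∀ x, Right orc x → (f x = true ↔ Triv x) := by
  obtain ⟨f1, hf1, hf1'⟩ := rac
  have hf1'' : ∀ n w, f1 (n, [], w) = true ↔ Triv (n, [], w) := by
    intro n w
    refine hf1' n [] ?_ w
    intro i j
    rw [mat_nil]
    split_ifs <;> omega
  have hr : Primrec fun K : ℕ => List.range (K + 1) := Primrec.list_range.comp Primrec.succ
  obtain ⟨E1, hE1, hE1'⟩ := cls (ℕ × Bool) (fun K => (List.range (K + 1)).product [true, false])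
    (prim_product hr (Primrec.const _))
  obtain ⟨E0, hE0, hE0'⟩ := cls ℕ (fun K => List.range (K + 1)) hr
  obtain ⟨E2, hE2, hE2'⟩ := cls Cert (fun K => (E1 K).product ((E1 K).product (E0 K)))
    (prim_product hE1 (prim_product hE1 hE0))
  obtain ⟨E3, hE3, hE3'⟩ := cls (List (ℕ × Bool) × ℕ × ℕ × Bool)
    (fun K => (E1 K).product ((List.range (K + 1)).product
      ((List.range (K + 1)).product [true, false])))
    (prim_product hE1 (prim_product hr (prim_product hr (Primrec.const _))))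
  have hm1 : ∀ K u, u ∈ E1 K ↔ (u.length ≤ K ∧ ∀ a ∈ u, a.1 ≤ K) := by
    intro K u
    rw [hE1']
    refine and_congr Iff.rfl (forall₂_congr fun a _ => ?_)
    obtain ⟨a, b'⟩ := a
    rw [List.pair_mem_product, List.mem_range]
    have h1 : b' ∈ [true, false] := by cases b' <;> simp
    simp only [h1, and_true]
    omega
  have hm0 : ∀ K u, u ∈ E0 K ↔ (u.length ≤ K ∧ ∀ a ∈ u, a ≤ K) := by
    intro K u
    rw [hE0']
    refine and_congr Iff.rfl (forall₂_congr fun a _ => ?_)
    rw [List.mem_range]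
    omega
  have hmem : ∀ K c, c ∈ E2 K ↔ (c.length ≤ K ∧ ∀ p ∈ c,
      (p.1.length ≤ K ∧ ∀ a ∈ p.1, a.1 ≤ K) ∧ (p.2.1.length ≤ K ∧ ∀ a ∈ p.2.1, a.1 ≤ K) ∧
      (p.2.2.length ≤ K ∧ ∀ a ∈ p.2.2, a ≤ K)) := by
    intro K c
    rw [hE2']
    refine and_congr Iff.rfl (forall₂_congr fun p _ => ?_)
    obtain ⟨u, v, X⟩ := p
    rw [List.pair_mem_product, List.pair_mem_product, hm1, hm1, hm0]
  have hmem3 : ∀ K c, c ∈ E3 K ↔ (c.length ≤ K ∧
      ∀ p ∈ c, (p.1.length ≤ K ∧ ∀ a ∈ p.1, a.1 ≤ K) ∧ p.2.1 ≤ K ∧ p.2.2.1 ≤ K) := by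
    intro K c
    rw [hE3']
    refine and_congr Iff.rfl (forall₂_congr fun p _ => ?_)
    obtain ⟨u, i, j, b⟩ := p
    rw [List.pair_mem_product, List.pair_mem_product, List.pair_mem_product, hm1,
      List.mem_range, List.mem_range]
    have h1 : b ∈ [true, false] := by cases b <;> simp
    simp only [h1, and_true, Nat.lt_succ_iff]
  have hGi : ∀ x : Inp, Right orc x → ∀ w, (GG orc f1 E2 (x, w) = true ↔
      nval (mat x.1 (trL x.2.1)) w = 1) := by
    intro x hx w
    rw [GG, List.any_eq_true]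
    have hT : Triv (x.1, trL x.2.1, w) ↔ nval (mat x.1 (trL x.2.1)) w = 1 := Iff.rfl
    rw [← hT]
    constructor
    · rintro ⟨c, -, hc⟩
      have h1 : Good tru x.1 (trL x.2.1) w c := (tstP_iff hC hf1'' hx w c).1 hc
      exact key_mp (f0 := tru) (n := x.1) (L := trL x.2.1) (w := w) (c := c) hC
        (tru_ok x.1 (trL x.2.1)) h1
    · intro h
      obtain ⟨c, hc1, hc2⟩ := key_mpr (f0 := tru) (n := x.1) (L := trL x.2.1) (w := w)
        (K := x.1 + ga x.1 w.length) hG hC (tru_ok x.1 (trL x.2.1)) le_rfl h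
      have h2 : tstP orc f1 ((x, w), c) = true := (tstP_iff hC hf1'' hx w c).2 hc2
      exact ⟨c, (hmem _ c).2 hc1, h2⟩
  refine ⟨FF orc f1 E2 E3, comp_FF ho hf1 hE2 hE3, ?_⟩
  rintro ⟨n, L, w⟩ hx
  have hk := key hB n L w (nb (n, L, w)) (by simp only [nb]; omega) (by simp only [nb]; omega)
      (fun i j => (mat_le n L i j).trans (by simp only [nb]; omega))
  rw [FF, List.any_eq_true]
  refine Iff.trans ?_ hk.symm
  refine exists_congr fun c => ?_
  rw [hmem3]
  refine and_congr Iff.rfl ?_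
  exact hGi (n, L, w) hx (w ++ exw (labN n L) c)

/-- the argument of the oracle -/
def ao (z : Qu) : Inp := (z.1.1, clL z.1.1 z.1.2.1 z.2.2, z.2.1)

theorem comp_ao : Computable ao := by
  have h : Primrec fun z : Qu => ((z.1.1, clL z.1.1 z.1.2.1 z.2.2, z.2.1) : Inp) :=
    Primrec.pair (Primrec.fst.comp Primrec.fst) (Primrec.pair
      (prim_clL (Primrec.fst.comp Primrec.fst)
        (Primrec.fst.comp (Primrec.snd.comp Primrec.fst)) (Primrec.snd.comp Primrec.snd))
      (Primrec.fst.comp Primrec.snd))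
  exact h.to_comp

/-- REL -/
theorem t_REL (hB : S_BIG) (hG : S_GPA.{0}) (hC : S_CLX.{0}) : S_REL := by
  intro f0 hf0
  have ho : Computable fun z : Qu => f0 (ao z) := hf0.comp comp_ao
  obtain ⟨f, hf, hf'⟩ := main hB hG hC (fun z => f0 (ao z)) ho
  refine ⟨f, hf, ?_⟩
  intro n L h w
  refine hf' (n, L, w) ?_
  intro X r hX hr
  show f0 (n, clL n L X, r) = true ↔ nval (mat n L) r = 1
  rw [h X hX r]
  let Y : Finset (Fin n) := Finset.univ.filter fun i => i.val ∈ X
  have hY : ∀ i : Fin n, i ∈ Y ↔ i.val ∈ X := by intro i; simp [Y]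
  rw [triv_clL hC Y hY r (fun a ha => (hY a.1).2 (hr _ (fl_mem ha))), nval_iff, ← wv_fl]

end Pool.Agent.L0h72.AL.REL
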